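import Pool.Agent.H80.Cm.Lin

/-!
# Programs with tests
-/

set_option linter.unusedSectionVars false

namespace Pool.Agent.H80.Cm

open Finset Pool.Agent.H587R2.MRB

variable {p M : ℕ} {A O : Type}

namespace Prog

open Classical in
/-- The outcomes of the tests. -/
noncomputable def path : Prog p M A O → State p M A → List Bool
  | stop _, _ => []
  | step I next, s => next.path (I.run s)
  | test g _ yes no, s => if g s then true :: yes.path s else false :: no.path s

open Classical in
/-- The instructions of a run. -/
noncomputable def trace : Prog p M A O → State p M A → List (Instr p M A)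
  | stop _, _ => []
  | step I next, s => I :: next.trace (I.run s)
  | test g _ yes no, s => if g s then yes.trace s else no.trace s

open Classical in
/-- The output registers of a run. -/
noncomputable def outs : Prog p M A O → State p M A → O → A
  | stop out, _ => out
  | step I next, s => next.outs (I.run s)
  | test g _ yes no, s => if g s then yes.outs s else no.outs s

/-- All possible lists of outcomes. -/
def paths : Prog p M A O → Finset (List Bool)
  | stop _ => {[]}
  | step _ next => next.paths
  | test _ _ yes no => yes.paths.image (List.cons true) ∪ no.paths.image (List.cons false)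

theorem path_mem (P : Prog p M A O) (s : State p M A) : P.path s ∈ P.paths := by
  induction P generalizing s with
  | stop out => simp [path, paths]
  | step I next ih => simpa [path, paths] using ih _
  | test g hg yes no ih1 ih2 =>
    simp only [path, paths]
    split_ifs
    · exact mem_union_left _ (mem_image_of_mem _ (ih1 s))
    · exact mem_union_right _ (mem_image_of_mem _ (ih2 s))

theorem card_paths_le (P : Prog p M A O) : P.paths.card ≤ P.leaves := by
  induction P with
  | stop out => simp [leaves, paths]
  | step I next ih => simpa [leaves, paths] using ih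
  | test g hg yes no ih1 ih2 =>
    simp only [leaves, paths]
    refine (card_union_le _ _).trans (add_le_add (card_image_le.trans ih1) (card_image_le.trans ih2))

theorem leaves_pos (P : Prog p M A O) : 0 < P.leaves := by
  induction P with
  | stop out => simp [leaves]
  | step I next ih => simpa [leaves] using ih
  | test g hg yes no ih1 ih2 => simp only [leaves]; omega

theorem path_between (P : Prog p M A O) {s s' s'' : State p M A} (h : s ≤ s') (h' : s' ≤ s'')
    (hp : P.path s = P.path s'') : P.path s' = P.path s := by
  induction P generalizing s s' s'' with
  | stop out => simp [path]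
  | step I next ih =>
    simp only [path] at hp ⊢
    exact ih (I.run_mono h) (I.run_mono h') hp
  | test g hg yes no ih1 ih2 =>
    simp only [path] at hp ⊢
    have h1 : g s → g s' := hg h
    have h2 : g s' → g s'' := hg h'
    by_cases hs : g s
    · have hs' := h1 hs
      have hs'' := h2 hs'
      simp only [hs, hs', hs'', if_true, List.cons.injEq, true_and] at hp ⊢
      exact ih1 h h' hp
    · have hs'' : ¬ g s'' := by
        intro hcon
        simp [hs, hcon] at hp
      have hs' : ¬ g s' := fun hh => hs'' (h2 hh)
      simp only [hs, hs', hs'', if_false, List.cons.injEq, true_and] at hp ⊢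
      exact ih2 h h' hp

theorem trace_eq (P : Prog p M A O) {s s' : State p M A} (h : P.path s = P.path s') :
    P.trace s = P.trace s' ∧ P.outs s = P.outs s' := by
  induction P generalizing s s' with
  | stop out => simp [trace, outs]
  | step I next ih =>
    simp only [path, trace, outs] at h ⊢
    obtain ⟨h1, h2⟩ := ih h
    exact ⟨by rw [h1], h2⟩
  | test g hg yes no ih1 ih2 =>
    simp only [path, trace, outs] at h ⊢
    by_cases hs : g s
    · by_cases hs' : g s'
      · simp only [hs, hs', if_true, List.cons.injEq, true_and] at h ⊢
        exact ih1 h
      · simp [hs, hs'] at h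
    · by_cases hs' : g s'
      · simp [hs, hs'] at h
      · simp only [hs, hs', if_false, List.cons.injEq, true_and] at h ⊢
        exact ih2 h

theorem answer_eq (P : Prog p M A O) (s : State p M A) (o : O) :
    P.answer s o = ((P.trace s).foldl (fun s i => i.run s) s).2 (P.outs s o) := by
  induction P generalizing s with
  | stop out => simp [trace, outs, answer]
  | step I next ih => simpa only [trace, outs, answer, List.foldl_cons] using ih _
  | test g hg yes no ih1 ih2 =>
    simp only [trace, outs, answer]
    split_ifs
    · exact ih1 s
    · exact ih2 s

theorem transfers_eq (P : Prog p M A O) (s : State p M A) (i : Fin p) :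
    P.transfers s i = ((P.trace s).map fun I => I.cost i).sum := by
  induction P generalizing s with
  | stop out => simp [trace, transfers]
  | step I next ih => simp only [trace, transfers, List.map_cons, List.sum_cons]; rw [ih]
  | test g hg yes no ih1 ih2 =>
    simp only [trace, transfers]
    split_ifs
    · exact ih1 s
    · exact ih2 s

end Prog

/-- The bound for a run with the numbers `c` of transfers of the processors. -/
noncomputable def tot (t M : ℕ) (c : Fin p → ℕ) : ℝ := ∑ i, chb t M (c i)

section

variable {X : Type} [Preorder X] {I J K : Type} [Fintype I] [Fintype J] [Fintype K]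
  {τ : I → J → K → X} {ζ : I → J → Finset K → X}

open Classical in
theorem path_bound [Nonempty I] [Nonempty J] (h : Points τ ζ) {t : ℕ}
    (hN : Fintype.card K + 1 ≤ 2 ^ t) (ht : 1 ≤ t) (hM : 1 ≤ M) (P : Prog p M A O)
    {S : X → State p M A} (hS : Monotone S) (hS0 : ∀ x y, (S x).1 = (S y).1)
    (h0 : ∀ a i j k, ¬ Mixed τ ζ (fun x => (S x).2 a) i j k)
    (hP : ∀ x y, P.path (S x) = P.path (S y)) (x₀ : X) (o : I → J → O) :
    ((univ.filter fun q : Σ _ : I × J × K, Finset K =>
      P.answer (S (τ q.1.1 q.1.2.1 q.1.2.2)) (o q.1.1 q.1.2.1) <
        P.answer (S (ζ q.1.1 q.1.2.1 q.2)) (o q.1.1 q.1.2.1)).card : ℝ) ≤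
      2 ^ Fintype.card K * tot t M (P.transfers (S x₀)) +
        Fintype.card I * Fintype.card J * (t + 2) * 2 ^ Fintype.card K := by
  set l := P.trace (S x₀) with hl
  have htr : ∀ x, P.trace (S x) = l := fun x => (P.trace_eq (hP x x₀)).1
  have hout : ∀ x, P.outs (S x) = P.outs (S x₀) := fun x => (P.trace_eq (hP x x₀)).2
  have hans : ∀ x u, P.answer (S x) u = (stt l l.length (S x)).2 (P.outs (S x₀) u) := by
    intro x u
    rw [P.answer_eq, htr, hout, stt, List.take_length]
  have h1 := lin_bound h hN ht hM l hS hS0 h0 fun i j => P.outs (S x₀) (o i j)
  have h2 : tot t M (P.transfers (S x₀)) = ∑ i, chb t M (cnt l i l.length) := by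
    unfold tot
    refine sum_congr rfl fun i _ => ?_
    rw [P.transfers_eq, cnt_length]
  rw [h2]
  simp only [hans]
  exact h1

end

end Pool.Agent.H80.Cm
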