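import Pool.Graph.R_seed8.H587R2.MRB.Block
import Pool.Agent.H80.Cm.Tree

/-!
# Averaging over the blocks
-/

set_option linter.unusedSectionVars false

namespace Pool.Agent.H80.Cm

open Finset Pool.Agent.H587R2.MRB

variable {np M : ℕ} {A O : Type} {P a : ℕ}

open Classical in
/-- The bound in a block in which the outcomes of the tests do not change. -/
theorem blk_bound {t : ℕ} (hN : a + 1 ≤ 2 ^ t) (ht : 1 ≤ t) (hM : 1 ≤ M) (Pr : Prog np M A O)
    (S : Pt P a → State np M A) (hS : Antitone S) (hS0 : ∀ x y, (S x).1 = (S y).1)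
    (hdep : ∀ R, (∀ A B B', (S (A, B)).2 R = (S (A, B')).2 R) ∨
      (∀ A A' B, (S (A, B)).2 R = (S (A', B)).2 R))
    (p q : Fin P) (hP : Pr.path (S (base P a (key P p q))) =
      Pr.path (S (base P a (key P p q + 1)))) (o : Fin a → Fin a → O) :
    ((univ.filter fun x : Σ _ : Fin a × Fin a × Fin a, Finset (Fin a) =>
      Pr.answer (S (tau p q x.1.1 x.1.2.1 x.1.2.2)) (o x.1.1 x.1.2.1) <
        Pr.answer (S (zeta p q x.1.1 x.1.2.1 x.2)) (o x.1.1 x.1.2.1)).card : ℝ) ≤
      2 ^ a * tot t M (Pr.transfers (S (base P a (key P p q)))) + a * a * (t + 2) * 2 ^ a := by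
  rcases Nat.eq_zero_or_pos a with ha | ha
  · subst ha
    have h1 : (univ.filter fun x : Σ _ : Fin 0 × Fin 0 × Fin 0, Finset (Fin 0) =>
      Pr.answer (S (tau p q x.1.1 x.1.2.1 x.1.2.2)) (o x.1.1 x.1.2.1) <
        Pr.answer (S (zeta p q x.1.1 x.1.2.1 x.2)) (o x.1.1 x.1.2.1)) = ∅ := by
      rw [eq_empty_iff_forall_notMem]
      rintro ⟨⟨i, -⟩, -⟩
      exact i.elim0
    rw [h1]
    have h2 : 0 ≤ tot t M (Pr.transfers (S (base P 0 (key P p q)))) := by
      unfold tot chb
      positivity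
    simp only [card_empty, Nat.cast_zero]
    positivity
  have hne : Nonempty (Fin a) := ⟨⟨0, ha⟩⟩
  let X := (Set.Icc (base P a (key P p q)) (base P a (key P p q + 1)))ᵒᵈ
  let τ : Fin a → Fin a → Fin a → X := fun i j k =>
    OrderDual.toDual ⟨tau p q i j k, base_le_tau _ _ _ _ _, tau_le_base _ _ _ _ _⟩
  let ζ : Fin a → Fin a → Finset (Fin a) → X := fun i j T =>
    OrderDual.toDual ⟨zeta p q i j T, base_le_zeta _ _ _ _ _, zeta_le_base _ _ _ _ _⟩
  let S' : X → State np M A := fun x => S (OrderDual.ofDual x).1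
  have hpts : Points τ ζ :=
    { diff := fun i i' j j' k T hi hj => tau_le_zeta_diff p q i i' j j' k T hi hj
      row := fun i j j' k T hj hk => tau_le_zeta_row p q i j j' k T hj hk
      col := fun i i' j k T hi hk => tau_le_zeta_col p q i i' j k T hi hk }
  have hS' : Monotone S' := fun x y hxy => hS hxy
  have hbase : ∀ x : X, Pr.path (S' x) = Pr.path (S (base P a (key P p q + 1))) := fun x =>
    Pr.path_between (hS (OrderDual.ofDual x).2.2) (hS (OrderDual.ofDual x).2.1) hP.symm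
  have hpath : ∀ x y : X, Pr.path (S' x) = Pr.path (S' y) := fun x y =>
    (hbase x).trans (hbase y).symm
  let x₀ : X := OrderDual.toDual ⟨base P a (key P p q), le_refl _, base_mono (Nat.le_succ _)⟩
  have h0 : ∀ R i j k, ¬ Mixed τ ζ (fun x => (S' x).2 R) i j k := by
    rintro R i j k ⟨⟨T, hT, hk⟩, T', hT', hk'⟩
    rw [mem_dset] at hT hT'
    change (S (tau p q i j k)).2 R < (S (zeta p q i j T)).2 R at hT
    change (S (tau p q i j k)).2 R < (S (zeta p q i j T')).2 R at hT'
    rcases hdep R with h | h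
    · have h1 : (S (zeta p q i j T)).2 R ≤ (S (tau p q i j k)).2 R := by
        have e1 := h (zeta p q i j T).1 (zeta p q i j T).2 (tau p q i j k).2
        have e2 : S ((zeta p q i j T).1, (tau p q i j k).2) ≤
            S ((tau p q i j k).1, (tau p q i j k).2) :=
          hS ⟨tau_le_zeta_fst p q i j k T hk, le_refl _⟩
        calc (S (zeta p q i j T)).2 R = (S ((zeta p q i j T).1, (tau p q i j k).2)).2 R := e1
          _ ≤ (S ((tau p q i j k).1, (tau p q i j k).2)).2 R := e2.2 R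
          _ = (S (tau p q i j k)).2 R := rfl
      linarith
    · have h1 : (S (zeta p q i j T')).2 R ≤ (S (tau p q i j k)).2 R := by
        have e1 := h (zeta p q i j T').1 (tau p q i j k).1 (zeta p q i j T').2
        have e2 : S ((tau p q i j k).1, (zeta p q i j T').2) ≤
            S ((tau p q i j k).1, (tau p q i j k).2) :=
          hS ⟨le_refl _, tau_le_zeta_snd p q i j k T' hk'⟩
        calc (S (zeta p q i j T')).2 R = (S ((tau p q i j k).1, (zeta p q i j T').2)).2 R := e1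
          _ ≤ (S ((tau p q i j k).1, (tau p q i j k).2)).2 R := e2.2 R
          _ = (S (tau p q i j k)).2 R := rfl
      linarith
  have h := path_bound hpts (t := t) (by rw [Fintype.card_fin]; exact hN) ht hM Pr hS'
    (fun x y => hS0 _ _) h0 hpath x₀ o
  rw [Fintype.card_fin] at h
  exact h

/-- The number of blocks in which the outcomes of the tests change. -/
theorem changes (Pr : Prog np M A O) (S : Pt P a → State np M A) (hS : Antitone S) :
    ((univ : Finset (Fin P × Fin P)).filter fun x =>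
      Pr.path (S (base P a (key P x.1 x.2))) ≠
        Pr.path (S (base P a (key P x.1 x.2 + 1)))).card + 1 ≤ Pr.leaves := by
  classical
  set C := (univ : Finset (Fin P × Fin P)).filter fun x =>
      Pr.path (S (base P a (key P x.1 x.2))) ≠
        Pr.path (S (base P a (key P x.1 x.2 + 1))) with hC
  -- `N` is larger than all keys
  obtain ⟨N, hN⟩ : ∃ N, ∀ x : Fin P × Fin P, key P x.1 x.2 < N := by
    refine ⟨(univ.sup fun x : Fin P × Fin P => key P x.1 x.2) + 1, fun x => ?_⟩
    exact Nat.lt_succ_of_le (Finset.le_sup (f := fun x : Fin P × Fin P => key P x.1 x.2)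
      (mem_univ x))
  have key' : ∀ b b' : ℕ, b < b' →
      Pr.path (S (base P a b)) = Pr.path (S (base P a b')) →
      Pr.path (S (base P a b)) = Pr.path (S (base P a (b + 1))) := by
    intro b b' hb h
    have h1 := Pr.path_between (hS (base_mono (a := a) (P := P) hb))
      (hS (base_mono (a := a) (P := P) (Nat.le_succ b))) h.symm
    exact h.trans h1.symm
  have h1 : (C.image fun x => Pr.path (S (base P a (key P x.1 x.2)))).card = C.card := by
    refine card_image_of_injOn ?_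
    intro x hx y hy h
    rw [mem_coe, hC, mem_filter] at hx hy
    simp only at h
    rcases lt_trichotomy (key P x.1 x.2) (key P y.1 y.2) with h2 | h2 | h2
    · exact absurd (key' _ _ h2 h) hx.2
    · obtain ⟨h3, h4⟩ := key_inj x.1.2 x.2.2 y.1.2 y.2.2 h2
      exact Prod.ext (Fin.ext h3) (Fin.ext h4)
    · exact absurd (key' _ _ h2 h.symm) hy.2
  have h2 : Pr.path (S (base P a N)) ∉ C.image fun x => Pr.path (S (base P a (key P x.1 x.2))) := by
    intro h3
    obtain ⟨x, hx, h4⟩ := mem_image.1 h3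
    rw [hC, mem_filter] at hx
    exact hx.2 (key' _ _ (hN x) h4)
  rw [← h1, ← card_insert_of_notMem h2]
  refine le_trans (card_le_card ?_) Pr.card_paths_le
  intro l hl
  rw [mem_insert] at hl
  rcases hl with rfl | hl
  · exact Pr.path_mem _
  · obtain ⟨x, _, rfl⟩ := mem_image.1 hl
    exact Pr.path_mem _

open Classical in
theorem avg {Ω : Type} [Fintype Ω] (p : Ω → ℝ) (hp : ∀ ω, 0 ≤ p ω)
    (hp1 : ∑ ω, p ω = 1) {t : ℕ} (hN : a + 1 ≤ 2 ^ t) (ht : 1 ≤ t) (hM : 1 ≤ M)
    (Pr : Ω → Prog np M A O) {m : ℕ} (hm : ∀ ω, (Pr ω).leaves ≤ m)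
    (S : Pt P a → State np M A) (hS : Antitone S) (hS0 : ∀ x y, (S x).1 = (S y).1)
    (hdep : ∀ R, (∀ A B B', (S (A, B)).2 R = (S (A, B')).2 R) ∨
      (∀ A A' B, (S (A, B)).2 R = (S (A', B)).2 R))
    (out : Fin P × Fin a → Fin P × Fin a → O) {δ : ℝ}
    (good : Ω → Pt P a → Fin P × Fin a → Fin P × Fin a → Prop)
    (hgood : ∀ ω x x' i j, good ω x i j → good ω x' i j → (∃ y, x.1 i y ∧ x.2 y j) →
      (∀ y, x'.1 i y → x'.2 y j → False) →
      (Pr ω).answer (S x) (out i j) < (Pr ω).answer (S x') (out i j))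
    (hprob : ∀ x i j, 1 / 2 + δ ≤ ∑ ω ∈ univ.filter (fun ω => good ω x i j), p ω)
    {c : ℝ} (hc : ∀ x, ∑ ω, p ω * tot t M ((Pr ω).transfers (S x)) ≤ c) :
    (P : ℝ) ^ 2 * (a : ℝ) ^ 3 * (2 * δ) ≤
      (P : ℝ) ^ 2 * c + (P : ℝ) ^ 2 * ((a : ℝ) ^ 2 * (t + 2)) + (m - 1) * (a : ℝ) ^ 3 := by
  -- quadruples
  let Q := Σ _ : Fin a × Fin a × Fin a, Finset (Fin a)
  have hQ : Fintype.card Q = a ^ 3 * 2 ^ a := by
    simp only [Q]
    rw [Fintype.card_sigma]
    simp only [Fintype.card_finset, Fintype.card_fin, sum_const, card_univ, Fintype.card_prod,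
      smul_eq_mul]
    ring
  let G : Fin P × Fin P → Ω → Finset Q := fun r ω => univ.filter fun x : Q =>
    good ω (tau r.1 r.2 x.1.1 x.1.2.1 x.1.2.2) (r.1, x.1.1) (r.2, x.1.2.1) ∧
      good ω (zeta r.1 r.2 x.1.1 x.1.2.1 x.2) (r.1, x.1.1) (r.2, x.1.2.1)
  have hm1 : ∀ ω : Ω, 1 ≤ m := fun ω =>
    Nat.succ_le_of_lt (lt_of_lt_of_le (Pr ω).leaves_pos (hm ω))
  -- upper bound for every program
  have hup : ∀ ω, ((∑ r, (G r ω).card : ℕ) : ℝ) ≤
      2 ^ a * ∑ r : Fin P × Fin P, tot t M ((Pr ω).transfers (S (base P a (key P r.1 r.2)))) +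
        P ^ 2 * (a ^ 2 * (t + 2)) * 2 ^ a + (m - 1) * (a ^ 3 * 2 ^ a) := by
    intro ω
    have h1 : ∀ r : Fin P × Fin P, ((G r ω).card : ℝ) ≤
        (2 ^ a * tot t M ((Pr ω).transfers (S (base P a (key P r.1 r.2)))) +
          a * a * (t + 2) * 2 ^ a) +
        ((if (Pr ω).path (S (base P a (key P r.1 r.2))) ≠
          (Pr ω).path (S (base P a (key P r.1 r.2 + 1))) then a ^ 3 * 2 ^ a else 0 : ℕ) : ℝ) := by
      intro r
      have h0 : 0 ≤ tot t M ((Pr ω).transfers (S (base P a (key P r.1 r.2)))) := by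
        unfold tot chb
        positivity
      split_ifs with h
      · have : (G r ω).card ≤ Fintype.card Q := card_le_univ _
        rw [hQ] at this
        have h' : ((G r ω).card : ℝ) ≤ ((a ^ 3 * 2 ^ a : ℕ) : ℝ) := by exact_mod_cast this
        have h'' : (0 : ℝ) ≤ 2 ^ a * tot t M ((Pr ω).transfers (S (base P a (key P r.1 r.2)))) +
          a * a * (t + 2) * 2 ^ a := by positivity
        linarith
      · rw [not_not] at h
        have h2 := blk_bound hN ht hM (Pr ω) S hS hS0 hdep r.1 r.2 h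
          (fun i j => out (r.1, i) (r.2, j))
        rw [Nat.cast_zero, add_zero]
        refine le_trans ?_ h2
        have h3 : (G r ω).card ≤ (univ.filter fun x : Σ _ : Fin a × Fin a × Fin a,
            Finset (Fin a) => (Pr ω).answer (S (tau r.1 r.2 x.1.1 x.1.2.1 x.1.2.2))
              (out (r.1, x.1.1) (r.2, x.1.2.1)) <
            (Pr ω).answer (S (zeta r.1 r.2 x.1.1 x.1.2.1 x.2))
              (out (r.1, x.1.1) (r.2, x.1.2.1))).card := by
          refine card_le_card ?_
          intro x hx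
          rw [mem_filter] at hx ⊢
          refine ⟨mem_univ _, hgood ω _ _ _ _ hx.2.1 hx.2.2 ?_ ?_⟩
          · exact tau_true r.1 r.2 _ _ _
          · intro y hy hy'
            exact zeta_false r.1 r.2 _ _ _ y hy hy'
        exact_mod_cast h3
    have h2 : ∑ r : Fin P × Fin P, (if (Pr ω).path (S (base P a (key P r.1 r.2))) ≠
          (Pr ω).path (S (base P a (key P r.1 r.2 + 1))) then a ^ 3 * 2 ^ a else 0) ≤
        (m - 1) * (a ^ 3 * 2 ^ a) := by
      rw [← sum_filter, sum_const, smul_eq_mul]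
      refine Nat.mul_le_mul_right _ ?_
      have h3 := (changes (Pr ω) S hS).trans (hm ω)
      refine Nat.le_sub_of_add_le ?_
      refine le_trans (Nat.add_le_add_right (le_of_eq (congrArg Finset.card ?_)) 1) h3
      ext r
      simp only [mem_filter]
    have h4 : ((m - 1 : ℕ) : ℝ) = (m : ℝ) - 1 := by
      rw [Nat.cast_sub (hm1 ω)]; simp
    have h5 : ((∑ r : Fin P × Fin P, (if (Pr ω).path (S (base P a (key P r.1 r.2))) ≠
          (Pr ω).path (S (base P a (key P r.1 r.2 + 1))) then a ^ 3 * 2 ^ a else 0) : ℕ) : ℝ) ≤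
        (m - 1) * (a ^ 3 * 2 ^ a) := by
      rw [← h4]
      exact_mod_cast h2
    calc ((∑ r, (G r ω).card : ℕ) : ℝ) = ∑ r, ((G r ω).card : ℝ) := by push_cast; rfl
      _ ≤ ∑ r : Fin P × Fin P, _ := sum_le_sum fun r _ => h1 r
      _ = ∑ r : Fin P × Fin P,
              (2 ^ a * tot t M ((Pr ω).transfers (S (base P a (key P r.1 r.2)))) +
                a * a * (t + 2) * 2 ^ a) +
            ((∑ r : Fin P × Fin P, (if (Pr ω).path (S (base P a (key P r.1 r.2))) ≠
              (Pr ω).path (S (base P a (key P r.1 r.2 + 1))) then a ^ 3 * 2 ^ a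
              else 0) : ℕ) : ℝ) := by
            rw [sum_add_distrib, Nat.cast_sum]
      _ ≤ ∑ r : Fin P × Fin P,
              (2 ^ a * tot t M ((Pr ω).transfers (S (base P a (key P r.1 r.2)))) +
                a * a * (t + 2) * 2 ^ a) + (m - 1) * (a ^ 3 * 2 ^ a) := by linarith
      _ = _ := by
          rw [sum_add_distrib, ← mul_sum]
          simp only [sum_const, card_univ, Fintype.card_prod, Fintype.card_fin, nsmul_eq_mul]
          push_cast
          ring
  -- lower bound on the average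
  have hlow : (P : ℝ) ^ 2 * (a ^ 3 * 2 ^ a) * (2 * δ) ≤
      ∑ ω, p ω * ((∑ r, (G r ω).card : ℕ) : ℝ) := by
    have h1 : ∀ (r : Fin P × Fin P) (x : Q),
        2 * δ ≤ ∑ ω, p ω * (if x ∈ G r ω then (1 : ℝ) else 0) := by
      intro r x
      have ha := hprob (tau r.1 r.2 x.1.1 x.1.2.1 x.1.2.2) (r.1, x.1.1) (r.2, x.1.2.1)
      have hb := hprob (zeta r.1 r.2 x.1.1 x.1.2.1 x.2) (r.1, x.1.1) (r.2, x.1.2.1)
      rw [sum_filter] at ha hb
      have h2 : ∀ ω, (if good ω (tau r.1 r.2 x.1.1 x.1.2.1 x.1.2.2) (r.1, x.1.1) (r.2, x.1.2.1)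
          then p ω else 0) +
          (if good ω (zeta r.1 r.2 x.1.1 x.1.2.1 x.2) (r.1, x.1.1) (r.2, x.1.2.1) then p ω
          else 0) - p ω ≤ p ω * (if x ∈ G r ω then (1 : ℝ) else 0) := by
        intro ω
        have hpω := hp ω
        by_cases hA : good ω (tau r.1 r.2 x.1.1 x.1.2.1 x.1.2.2) (r.1, x.1.1) (r.2, x.1.2.1)
        · by_cases hC : good ω (zeta r.1 r.2 x.1.1 x.1.2.1 x.2) (r.1, x.1.1) (r.2, x.1.2.1)
          · have : x ∈ G r ω := by
              simp only [G, mem_filter, mem_univ, true_and]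
              exact ⟨hA, hC⟩
            simp only [hA, hC, this, if_true]
            linarith
          · simp only [hA, hC, if_true, if_false]
            split_ifs <;> linarith
        · simp only [hA, if_false]
          by_cases hC : good ω (zeta r.1 r.2 x.1.1 x.1.2.1 x.2) (r.1, x.1.1) (r.2, x.1.2.1)
          · simp only [hC, if_true]
            split_ifs <;> linarith
          · simp only [hC, if_false]
            split_ifs <;> linarith
      have h3 := sum_le_sum fun ω (_ : ω ∈ (univ : Finset Ω)) => h2 ω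
      rw [sum_sub_distrib, sum_add_distrib, hp1] at h3
      linarith
    have h4 : ∀ r : Fin P × Fin P, ((a : ℝ) ^ 3 * 2 ^ a) * (2 * δ) ≤
        ∑ ω, p ω * ((G r ω).card : ℝ) := by
      intro r
      have h5 : ∀ ω, ((G r ω).card : ℝ) = ∑ x : Q, (if x ∈ G r ω then (1 : ℝ) else 0) := by
        intro ω
        rw [← sum_filter, sum_const, nsmul_eq_mul, mul_one]
        congr 2
        ext x
        simp
      calc ((a : ℝ) ^ 3 * 2 ^ a) * (2 * δ) = ∑ x : Q, 2 * δ := by
            rw [sum_const, nsmul_eq_mul, card_univ, hQ]; push_cast; ring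
        _ ≤ ∑ x : Q, ∑ ω, p ω * (if x ∈ G r ω then (1 : ℝ) else 0) :=
            sum_le_sum fun x _ => h1 r x
        _ = ∑ ω, ∑ x : Q, p ω * (if x ∈ G r ω then (1 : ℝ) else 0) := sum_comm
        _ = ∑ ω, p ω * ((G r ω).card : ℝ) := by
            refine sum_congr rfl fun ω _ => ?_
            rw [h5, mul_sum]
    calc (P : ℝ) ^ 2 * (a ^ 3 * 2 ^ a) * (2 * δ) =
          ∑ _r : Fin P × Fin P, ((a : ℝ) ^ 3 * 2 ^ a) * (2 * δ) := by
          rw [sum_const, nsmul_eq_mul, card_univ, Fintype.card_prod, Fintype.card_fin]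
          push_cast; ring
      _ ≤ ∑ r : Fin P × Fin P, ∑ ω, p ω * ((G r ω).card : ℝ) := sum_le_sum fun r _ => h4 r
      _ = ∑ ω, ∑ r : Fin P × Fin P, p ω * ((G r ω).card : ℝ) := sum_comm
      _ = ∑ ω, p ω * ((∑ r, (G r ω).card : ℕ) : ℝ) := by
          refine sum_congr rfl fun ω _ => ?_
          rw [← mul_sum]; push_cast; ring
  have h2a : (0 : ℝ) < 2 ^ a := by positivity
  have hfin : ((P : ℝ) ^ 2 * (a : ℝ) ^ 3 * (2 * δ)) * 2 ^ a ≤
      ((P : ℝ) ^ 2 * c + (P : ℝ) ^ 2 * ((a : ℝ) ^ 2 * (t + 2)) + (m - 1) * (a : ℝ) ^ 3) *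
        2 ^ a := by
    calc ((P : ℝ) ^ 2 * (a : ℝ) ^ 3 * (2 * δ)) * 2 ^ a
        = (P : ℝ) ^ 2 * (a ^ 3 * 2 ^ a) * (2 * δ) := by ring
      _ ≤ ∑ ω, p ω * ((∑ r, (G r ω).card : ℕ) : ℝ) := hlow
      _ ≤ ∑ ω, p ω * (2 ^ a *
          ∑ r : Fin P × Fin P, tot t M ((Pr ω).transfers (S (base P a (key P r.1 r.2)))) +
          P ^ 2 * (a ^ 2 * (t + 2)) * 2 ^ a + (m - 1) * (a ^ 3 * 2 ^ a)) :=
          sum_le_sum fun ω _ => mul_le_mul_of_nonneg_left (hup ω) (hp ω)
      _ = 2 ^ a * ∑ r : Fin P × Fin P,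
            ∑ ω, p ω * tot t M ((Pr ω).transfers (S (base P a (key P r.1 r.2)))) +
          (P ^ 2 * (a ^ 2 * (t + 2)) * 2 ^ a + (m - 1) * (a ^ 3 * 2 ^ a)) * ∑ ω, p ω := by
          rw [sum_comm, mul_sum, mul_sum, ← sum_add_distrib]
          refine sum_congr rfl fun ω _ => ?_
          rw [← mul_sum]; ring
      _ ≤ 2 ^ a * (P ^ 2 * c) +
          (P ^ 2 * (a ^ 2 * (t + 2)) * 2 ^ a + (m - 1) * (a ^ 3 * 2 ^ a)) := by
          rw [hp1, mul_one]
          refine add_le_add_left (mul_le_mul_of_nonneg_left ?_ h2a.le) _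
          calc ∑ r : Fin P × Fin P,
                ∑ ω, p ω * tot t M ((Pr ω).transfers (S (base P a (key P r.1 r.2))))
              ≤ ∑ _r : Fin P × Fin P, c := sum_le_sum fun r _ => hc _
            _ = P ^ 2 * c := by
              rw [sum_const, nsmul_eq_mul, card_univ, Fintype.card_prod, Fintype.card_fin]
              push_cast; ring
      _ = _ := by ring
  exact le_of_mul_le_mul_right hfin h2a

end Pool.Agent.H80.Cm
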