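import Pool.Agent.H80.Cm.Reg

/-!
# One block: several registers are computed from several registers
-/

set_option linter.unusedSectionVars false

namespace Pool.Agent.H80.Cm

open Finset Pool.Agent.H587R2.MRB Classical

variable {X I J K : Type} [Fintype I] [Fintype J] [Fintype K] [Preorder X]
  {τ : I → J → K → X} {ζ : I → J → Finset K → X}

/-- The `k` for which `(i, j, k)` is mixed and `T` belongs to its sets. -/
noncomputable def mset (τ : I → J → K → X) (ζ : I → J → Finset K → X) (W : X → ℝ) (i : I) (j : J)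
    (T : Finset K) : Finset K :=
  univ.filter fun k => Mixed τ ζ W i j k ∧ T ∈ dset τ ζ W i j k

theorem card_image_chain (A : Finset K → Finset K) (h : ∀ T T', A T ⊆ A T' ∨ A T' ⊆ A T) :
    (univ.image A).card ≤ Fintype.card K + 1 := by
  rw [← card_range (Fintype.card K + 1)]
  refine card_le_card_of_injOn card ?_ ?_
  · intro B _
    rw [coe_range, Set.mem_Iio]
    exact Nat.lt_succ_of_le (card_le_univ _)
  · intro B hB C hC heq
    rw [mem_coe] at hB hC
    obtain ⟨T, -, rfl⟩ := mem_image.1 hB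
    obtain ⟨T', -, rfl⟩ := mem_image.1 hC
    rcases h T T' with h1 | h1
    · exact eq_of_subset_of_card_le h1 heq.ge
    · exact (eq_of_subset_of_card_le h1 heq.le).symm

theorem card_image_mset (W : X → ℝ) (i : I) (j : J) :
    (univ.image (mset τ ζ W i j)).card ≤ Fintype.card K + 1 := by
  refine card_image_chain _ fun T T' => ?_
  rcases le_total (W (ζ i j T)) (W (ζ i j T')) with h | h
  · left
    intro k hk
    simp only [mset, mem_filter, mem_univ, true_and, mem_dset] at hk ⊢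
    exact ⟨hk.1, hk.2.trans_le h⟩
  · right
    intro k hk
    simp only [mset, mem_filter, mem_univ, true_and, mem_dset] at hk ⊢
    exact ⟨hk.1, hk.2.trans_le h⟩

variable {α β : Type} [Fintype α] [Fintype β]

/-- The `k` for which `((i, j, k), T)` is charged to the block.  Here `pr r o` says that `r` is
read before `o` is computed. -/
noncomputable def chg (τ : I → J → K → X) (ζ : I → J → Finset K → X) (pr : α → β → Prop)
    (R : α → X → ℝ) (O : β → X → ℝ) (mR : α → I × J) (mO : β → I × J) (i : I) (j : J)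
    (T : Finset K) : Finset K :=
  univ.filter fun k => ∃ o, mO o = (i, j) ∧ k ∈ mset τ ζ (O o) i j T ∧
    ∀ r, pr r o → mR r = (i, j) → k ∉ mset τ ζ (R r) i j T

/-- The number of the registers of the block with the main pair `(i, j)`. -/
noncomputable def nreg (mR : α → I × J) (mO : β → I × J) (i : I) (j : J) : ℕ :=
  (univ.filter fun o => mO o = (i, j)).card + (univ.filter fun r => mR r = (i, j)).card

theorem card_image_chg (pr : α → β → Prop) (R : α → X → ℝ) (O : β → X → ℝ) (mR : α → I × J)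
    (mO : β → I × J) (i : I) (j : J) :
    (univ.image (chg τ ζ pr R O mR mO i j)).card ≤ (Fintype.card K + 1) ^ nreg mR mO i j := by
  let SO := {o : β // mO o = (i, j)}
  let SR := {r : α // mR r = (i, j)}
  let G : Finset K → (SO → Finset K) × (SR → Finset K) := fun T =>
    (fun o => mset τ ζ (O o.1) i j T, fun r => mset τ ζ (R r.1) i j T)
  let Φ : (SO → Finset K) × (SR → Finset K) → Finset K := fun p =>
    univ.filter fun k => ∃ o : SO, k ∈ p.1 o ∧ ∀ r : SR, pr r.1 o.1 → k ∉ p.2 r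
  have hF : chg τ ζ pr R O mR mO i j = Φ ∘ G := by
    funext T
    ext k
    simp only [chg, Φ, G, Function.comp, mem_filter, mem_univ, true_and]
    constructor
    · rintro ⟨o, h1, h2, h3⟩
      exact ⟨⟨o, h1⟩, h2, fun r hr => h3 r.1 hr r.2⟩
    · rintro ⟨o, h1, h2⟩
      exact ⟨o.1, o.2, h1, fun r hr hr' => h2 ⟨r, hr'⟩ hr⟩
  have h1 : (univ.image (chg τ ζ pr R O mR mO i j)).card ≤ (univ.image G).card := by
    rw [hF, ← image_image]
    exact card_image_le
  have h2 : univ.image G ⊆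
      (Fintype.piFinset fun o : SO => univ.image (mset τ ζ (O o.1) i j)) ×ˢ
        (Fintype.piFinset fun r : SR => univ.image (mset τ ζ (R r.1) i j)) := by
    intro p hp
    obtain ⟨T, -, rfl⟩ := mem_image.1 hp
    rw [mem_product, Fintype.mem_piFinset, Fintype.mem_piFinset]
    exact ⟨fun o => mem_image_of_mem _ (mem_univ _), fun r => mem_image_of_mem _ (mem_univ _)⟩
  refine h1.trans ((card_le_card h2).trans ?_)
  rw [card_product, Fintype.card_piFinset, Fintype.card_piFinset, nreg, pow_add]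
  refine Nat.mul_le_mul ?_ ?_
  · calc ∏ o : SO, (univ.image (mset τ ζ (O o.1) i j)).card ≤ ∏ _o : SO, (Fintype.card K + 1) :=
          prod_le_prod' fun o _ => card_image_mset _ _ _
      _ = _ := by rw [prod_const, card_univ, Fintype.card_subtype]
  · calc ∏ o : SR, (univ.image (mset τ ζ (R o.1) i j)).card ≤ ∏ _o : SR, (Fintype.card K + 1) :=
          prod_le_prod' fun o _ => card_image_mset _ _ _
      _ = _ := by rw [prod_const, card_univ, Fintype.card_subtype]

/-- The masses of the registers read by the block. -/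
noncomputable def u0 (τ : I → J → K → X) (ζ : I → J → Finset K → X) (R : α → X → ℝ) (i : I)
    (k : K) : ℕ :=
  ∑ r, xm τ ζ (R r) i k

noncomputable def u1 (τ : I → J → K → X) (ζ : I → J → Finset K → X) (R : α → X → ℝ) (k : K)
    (j : J) : ℕ :=
  ∑ r, ym τ ζ (R r) k j

noncomputable def bad (τ : I → J → K → X) (ζ : I → J → Finset K → X) (R : α → X → ℝ)
    (mR : α → I × J) (i : I) (j : J) (k : K) : ℕ :=
  ∑ r, if Mixed τ ζ (R r) i j k ∧ (i, j) ≠ mR r then (dset τ ζ (R r) i j k).card else 0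

section

variable {pr : α → β → Prop} {R : α → X → ℝ} {O : β → X → ℝ} {mR : α → I × J} {mO : β → I × J}
  (hdet : ∀ o x y, (∀ r, pr r o → R r x ≤ R r y) → O o x ≤ O o y)

include hdet

theorem cover {i : I} {j : J} {k : K} {T : Finset K} (hk : k ∈ chg τ ζ pr R O mR mO i j T) :
    ∃ r, T ∈ dset τ ζ (R r) i j k ∧
      (¬ Mixed τ ζ (R r) i j k ∨ (Mixed τ ζ (R r) i j k ∧ (i, j) ≠ mR r)) := by
  simp only [chg, mem_filter, mem_univ, true_and] at hk
  obtain ⟨o, -, ho, hr⟩ := hk
  simp only [mset, mem_filter, mem_univ, true_and, mem_dset] at ho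
  have h1 : ∃ r, pr r o ∧ R r (τ i j k) < R r (ζ i j T) := by
    by_contra hcon
    push Not at hcon
    exact absurd (hdet o _ _ hcon) (not_le.2 ho.2)
  obtain ⟨r, hpr, h2⟩ := h1
  refine ⟨r, mem_dset.2 h2, ?_⟩
  by_cases hm : Mixed τ ζ (R r) i j k
  · right
    refine ⟨hm, fun heq => ?_⟩
    refine hr r hpr heq.symm ?_
    simp only [mset, mem_filter, mem_univ, true_and]
    exact ⟨hm, mem_dset.2 h2⟩
  · exact Or.inl hm

theorem count_mem (i : I) (j : J) (k : K) :
    (univ.filter fun T => k ∈ chg τ ζ pr R O mR mO i j T ∧ k ∈ T).card ≤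
      u1 τ ζ R k j + bad τ ζ R mR i j k := by
  have h1 : (univ.filter fun T => k ∈ chg τ ζ pr R O mR mO i j T ∧ k ∈ T) ⊆
      (univ.biUnion fun r => if One τ ζ (R r) i j k then dset τ ζ (R r) i j k else ∅) ∪
        (univ.biUnion fun r => if Mixed τ ζ (R r) i j k ∧ (i, j) ≠ mR r then
          dset τ ζ (R r) i j k else ∅) := by
    intro T hT
    obtain ⟨hT1, hT2⟩ := (mem_filter.1 hT).2
    obtain ⟨r, hr, h2 | h2⟩ := cover hdet hT1
    · refine mem_union_left _ (mem_biUnion.2 ⟨r, mem_univ _, ?_⟩)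
      rw [if_pos (one_of_mem h2 hr hT2)]
      exact hr
    · refine mem_union_right _ (mem_biUnion.2 ⟨r, mem_univ _, ?_⟩)
      rw [if_pos h2]
      exact hr
  refine (card_le_card h1).trans ((card_union_le _ _).trans (add_le_add ?_ ?_))
  · refine card_biUnion_le.trans (sum_le_sum fun r _ => ?_)
    split_ifs with h3
    · exact le_ym h3
    · simp
  · refine card_biUnion_le.trans (sum_le_sum fun r _ => ?_)
    split_ifs with h3
    · exact le_rfl
    · simp

theorem count_not_mem (i : I) (j : J) (k : K) :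
    (univ.filter fun T => k ∈ chg τ ζ pr R O mR mO i j T ∧ k ∉ T).card ≤
      u0 τ ζ R i k + bad τ ζ R mR i j k := by
  have h1 : (univ.filter fun T => k ∈ chg τ ζ pr R O mR mO i j T ∧ k ∉ T) ⊆
      (univ.biUnion fun r => if Zero τ ζ (R r) i j k then dset τ ζ (R r) i j k else ∅) ∪
        (univ.biUnion fun r => if Mixed τ ζ (R r) i j k ∧ (i, j) ≠ mR r then
          dset τ ζ (R r) i j k else ∅) := by
    intro T hT
    obtain ⟨hT1, hT2⟩ := (mem_filter.1 hT).2
    obtain ⟨r, hr, h2 | h2⟩ := cover hdet hT1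
    · refine mem_union_left _ (mem_biUnion.2 ⟨r, mem_univ _, ?_⟩)
      rw [if_pos (zero_of_not_mem h2 hr hT2)]
      exact hr
    · refine mem_union_right _ (mem_biUnion.2 ⟨r, mem_univ _, ?_⟩)
      rw [if_pos h2]
      exact hr
  refine (card_le_card h1).trans ((card_union_le _ _).trans (add_le_add ?_ ?_))
  · refine card_biUnion_le.trans (sum_le_sum fun r _ => ?_)
    split_ifs with h3
    · exact le_xm h3
    · simp
  · refine card_biUnion_le.trans (sum_le_sum fun r _ => ?_)
    split_ifs with h3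
    · exact le_rfl
    · simp

theorem pair_bound (i : I) (j : J) :
    ∑ T, ((chg τ ζ pr R O mR mO i j T).card : ℝ) ≤
      3 * ∑ k, (min (u0 τ ζ R i k : ℝ) (u1 τ ζ R k j) + bad τ ζ R mR i j k) +
        4 * (2 ^ Fintype.card K * (nreg mR mO i j * Real.logb 2 (Fintype.card K + 1))) := by
  set N := Fintype.card K with hN
  set F := chg τ ζ pr R O mR mO i j with hF
  set K1 : Finset K := univ.filter fun k => u1 τ ζ R k j ≤ u0 τ ζ R i k with hK1
  set L := (N + 1) ^ nreg mR mO i j with hL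
  have hL1 : 1 ≤ L := Nat.one_le_pow _ _ (by omega)
  have himg : (univ.image F).card ≤ L := card_image_chg pr R O mR mO i j
  have himg1 : ∀ A : Finset K, (univ.image fun T => F T ∩ A).card ≤ L := by
    intro A
    have : (univ.image fun T => F T ∩ A) = (univ.image F).image (fun B => B ∩ A) := by
      rw [image_image]; rfl
    rw [this]
    exact card_image_le.trans himg
  have hlog : Real.logb 2 (L : ℝ) = nreg mR mO i j * Real.logb 2 ((N : ℝ) + 1) := by
    rw [hL]
    push_cast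
    rw [Real.logb_pow]
  have e1 := ent (fun T => F T ∩ K1) L (himg1 K1) hL1
  have e0 := ent' (fun T => F T ∩ K1ᶜ) L (himg1 K1ᶜ) hL1
  rw [hlog] at e1 e0
  -- the two counts
  have c1 : ∑ T, ((F T ∩ K1 ∩ T).card : ℝ) ≤
      ∑ k ∈ K1, (min (u0 τ ζ R i k : ℝ) (u1 τ ζ R k j) + bad τ ζ R mR i j k) := by
    have h1 : ∑ T, (F T ∩ K1 ∩ T).card = ∑ k ∈ K1, (univ.filter fun T => k ∈ F T ∧ k ∈ T).card := by
      simp_rw [card_eq_sum_ones, sum_filter]
      rw [sum_comm]
      refine sum_congr rfl fun T _ => ?_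
      rw [← sum_filter]
      refine sum_congr ?_ fun _ _ => rfl
      ext k
      simp only [mem_inter, mem_filter]
      tauto
    have h2 : ∑ T, (F T ∩ K1 ∩ T).card ≤ ∑ k ∈ K1, (u1 τ ζ R k j + bad τ ζ R mR i j k) := by
      rw [h1]
      exact sum_le_sum fun k _ => count_mem hdet i j k
    calc ∑ T, ((F T ∩ K1 ∩ T).card : ℝ) = ((∑ T, (F T ∩ K1 ∩ T).card : ℕ) : ℝ) := by push_cast; rfl
      _ ≤ ((∑ k ∈ K1, (u1 τ ζ R k j + bad τ ζ R mR i j k) : ℕ) : ℝ) := by exact_mod_cast h2
      _ = ∑ k ∈ K1, (min (u0 τ ζ R i k : ℝ) (u1 τ ζ R k j) + bad τ ζ R mR i j k) := by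
          push_cast
          refine sum_congr rfl fun k hk => ?_
          have h3 : (u1 τ ζ R k j : ℝ) ≤ u0 τ ζ R i k := by exact_mod_cast (mem_filter.1 hk).2
          rw [min_eq_right h3]
  have c0 : ∑ T, (((F T ∩ K1ᶜ) \ T).card : ℝ) ≤
      ∑ k ∈ K1ᶜ, (min (u0 τ ζ R i k : ℝ) (u1 τ ζ R k j) + bad τ ζ R mR i j k) := by
    have h1 : ∑ T, ((F T ∩ K1ᶜ) \ T).card =
        ∑ k ∈ K1ᶜ, (univ.filter fun T => k ∈ F T ∧ k ∉ T).card := by
      simp_rw [card_eq_sum_ones, sum_filter]
      rw [sum_comm]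
      refine sum_congr rfl fun T _ => ?_
      rw [← sum_filter]
      refine sum_congr ?_ fun _ _ => rfl
      ext k
      simp only [mem_inter, mem_filter, mem_sdiff]
      tauto
    have h2 : ∑ T, ((F T ∩ K1ᶜ) \ T).card ≤
        ∑ k ∈ K1ᶜ, (u0 τ ζ R i k + bad τ ζ R mR i j k) := by
      rw [h1]
      exact sum_le_sum fun k _ => count_not_mem hdet i j k
    calc ∑ T, (((F T ∩ K1ᶜ) \ T).card : ℝ)
        = ((∑ T, ((F T ∩ K1ᶜ) \ T).card : ℕ) : ℝ) := by push_cast; rfl
      _ ≤ ((∑ k ∈ K1ᶜ, (u0 τ ζ R i k + bad τ ζ R mR i j k) : ℕ) : ℝ) := by exact_mod_cast h2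
      _ = ∑ k ∈ K1ᶜ, (min (u0 τ ζ R i k : ℝ) (u1 τ ζ R k j) + bad τ ζ R mR i j k) := by
          push_cast
          refine sum_congr rfl fun k hk => ?_
          have h3 : (u0 τ ζ R i k : ℝ) ≤ u1 τ ζ R k j := by
            have : ¬ (u1 τ ζ R k j ≤ u0 τ ζ R i k) := by
              intro hh
              exact (mem_compl.1 hk) (mem_filter.2 ⟨mem_univ _, hh⟩)
            exact_mod_cast (not_le.1 this).le
          rw [min_eq_left h3]
  have hsplit : ∀ T, ((F T).card : ℝ) =
      (((F T ∩ K1) \ T).card : ℝ) + ((F T ∩ K1 ∩ T).card : ℝ) +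
        ((((F T ∩ K1ᶜ) \ T).card : ℝ) + ((F T ∩ K1ᶜ ∩ T).card : ℝ)) := by
    intro T
    have h1 : (F T).card = (F T ∩ K1).card + (F T ∩ K1ᶜ).card := by
      rw [← card_inter_add_card_sdiff (F T) K1]
      congr 2
      ext k; simp
    have h2 : ∀ B : Finset K, B.card = (B \ T).card + (B ∩ T).card := fun B => by
      rw [add_comm]; exact (card_inter_add_card_sdiff B T).symm
    rw [h1, h2 (F T ∩ K1), h2 (F T ∩ K1ᶜ)]
    push_cast
    ring
  have hsum : ∑ k, (min (u0 τ ζ R i k : ℝ) (u1 τ ζ R k j) + bad τ ζ R mR i j k) =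
      ∑ k ∈ K1, (min (u0 τ ζ R i k : ℝ) (u1 τ ζ R k j) + bad τ ζ R mR i j k) +
        ∑ k ∈ K1ᶜ, (min (u0 τ ζ R i k : ℝ) (u1 τ ζ R k j) + bad τ ζ R mR i j k) :=
    (sum_add_sum_compl K1 _).symm
  calc ∑ T, ((F T).card : ℝ) = (∑ T, (((F T ∩ K1) \ T).card : ℝ) +
        ∑ T, ((F T ∩ K1 ∩ T).card : ℝ)) + (∑ T, (((F T ∩ K1ᶜ) \ T).card : ℝ) +
        ∑ T, ((F T ∩ K1ᶜ ∩ T).card : ℝ)) := by
        rw [← sum_add_distrib, ← sum_add_distrib, ← sum_add_distrib]
        exact sum_congr rfl fun T _ => hsplit T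
    _ ≤ 3 * ∑ T, ((F T ∩ K1 ∩ T).card : ℝ) + 3 * ∑ T, (((F T ∩ K1ᶜ) \ T).card : ℝ) +
        4 * (2 ^ N * (nreg mR mO i j * Real.logb 2 ((N : ℝ) + 1))) := by linarith
    _ ≤ _ := by
        rw [hsum]
        linarith

end

end Pool.Agent.H80.Cm
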