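import Pool.Agent.H80.Cm.Mach

/-!
# All-pairs shortest paths on machines with local memories and a shared memory
-/

namespace Pool.Agent.H80.Cm

open Finset

/-- The length of the walk from `u` to `v` through the vertices of the list `l`, where `w x y` is
the weight of the edge from `x` to `y`. -/
def walkLen {n : ℕ} (w : Fin n → Fin n → ℕ) : Fin n → List (Fin n) → Fin n → ℕ
  | u, [], v => w u v
  | u, x :: l, v => w u x + walkLen w x l v

/-- The distance from `u` to `v`: the smallest length of a walk from `u` to `v`. -/
noncomputable def distance {n : ℕ} (w : Fin n → Fin n → ℕ) (u v : Fin n) : ℕ :=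
  ⨅ l : List (Fin n), walkLen w u l v

/-- The state at the start: the shared register `Sum.inl (u, v)` contains the weight `w u v` of the
edge from `u` to `v`, and all other shared registers and all local registers contain `0`. -/
def start {n : ℕ} (p M : ℕ) (w : Fin n → Fin n → ℕ) : State p M ((Fin n × Fin n) ⊕ ℕ) :=
  (fun _ _ => 0, fun a => a.elim (fun e => (w e.1 e.2 : ℝ)) fun _ => 0)

/-- The number in the output register `(u, v)` is at least the distance from `u` to `v` and at most
`α` times the distance. -/
def Approx {p M n : ℕ} (α : ℝ) (P : Prog p M ((Fin n × Fin n) ⊕ ℕ) (Fin n × Fin n))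
    (w : Fin n → Fin n → ℕ) (u v : Fin n) : Prop :=
  (distance w u v : ℝ) ≤ P.answer (start p M w) (u, v) ∧
    P.answer (start p M w) (u, v) ≤ α * distance w u v

open Classical in
/-- The randomised program `P ω`, where `ω` has probability `pr ω`, approximates all distances with
advantage `δ`: for all complete directed graphs on `n` vertices with weights `1` and `W` and for
all pairs `u ≠ v` of vertices the output `(u, v)` is an approximation of the distance within the
factor `α` with probability at least `1 / 2 + δ`. -/
def SolvesAPSP {p M n : ℕ} (W : ℕ) (α δ : ℝ) {Ω : Type} [Fintype Ω] (pr : Ω → ℝ)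
    (P : Ω → Prog p M ((Fin n × Fin n) ⊕ ℕ) (Fin n × Fin n)) : Prop :=
  (∀ ω, 0 ≤ pr ω) ∧ ∑ ω, pr ω = 1 ∧
    ∀ w : Fin n → Fin n → ℕ, (∀ u v, w u v = 1 ∨ w u v = W) → ∀ u v, u ≠ v →
      1 / 2 + δ ≤ ∑ ω ∈ univ.filter (fun ω => Approx α (P ω) w u v), pr ω

end Pool.Agent.H80.Cm
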