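import Mathlib

/-!
# Random sets which avoid the sets of a small family
-/

namespace Pool.Agent.H80.Cm

open Finset

variable {K : Type} [Fintype K] [DecidableEq K]

theorem sum_weight (A : Finset K) :
    ∑ T : Finset K, (Real.sqrt 2) ^ (A \ T).card * (1 / 2 : ℝ) ^ (A ∩ T).card ≤
      2 ^ Fintype.card K := by
  have h1 : ∀ T : Finset K, (Real.sqrt 2) ^ (A \ T).card * (1 / 2 : ℝ) ^ (A ∩ T).card =
      (∏ k ∈ T, if k ∈ A then (1 / 2 : ℝ) else 1) *
        ∏ k ∈ univ \ T, if k ∈ A then Real.sqrt 2 else 1 := by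
    intro T
    have e1 : (∏ k ∈ T, if k ∈ A then (1 / 2 : ℝ) else 1) = (1 / 2 : ℝ) ^ (A ∩ T).card := by
      rw [prod_ite, prod_const, prod_const, one_pow, mul_one]
      congr 1
      congr 1
      ext k; simp [and_comm]
    have e2 : (∏ k ∈ univ \ T, if k ∈ A then Real.sqrt 2 else 1) =
        Real.sqrt 2 ^ (A \ T).card := by
      rw [prod_ite, prod_const, prod_const, one_pow, mul_one]
      congr 1
      congr 1
      ext k; simp [and_comm]
    rw [e1, e2, mul_comm]
  calc ∑ T : Finset K, (Real.sqrt 2) ^ (A \ T).card * (1 / 2 : ℝ) ^ (A ∩ T).card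
      = ∑ T ∈ (univ : Finset K).powerset, (∏ k ∈ T, if k ∈ A then (1 / 2 : ℝ) else 1) *
        ∏ k ∈ univ \ T, (if k ∈ A then Real.sqrt 2 else 1) := by
        rw [powerset_univ]
        exact sum_congr rfl fun T _ => h1 T
    _ = ∏ k : K, ((if k ∈ A then (1 / 2 : ℝ) else 1) + (if k ∈ A then Real.sqrt 2 else 1)) :=
        (prod_add _ _ _).symm
    _ ≤ ∏ _k : K, (2 : ℝ) := by
        refine prod_le_prod (fun k _ => ?_) (fun k _ => ?_)
        · split_ifs <;> positivity
        · have h2 : Real.sqrt 2 ≤ 3 / 2 := by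
            rw [Real.sqrt_le_left (by norm_num)]
            norm_num
          split_ifs <;> linarith
    _ = 2 ^ Fintype.card K := by simp

/-- If the set `F T` has only `L` different values, then for a random set `T` the expected size of
`F T \ T` is at most twice the expected size of `F T ∩ T` plus `2 log L`. -/
theorem ent (F : Finset K → Finset K) (L : ℕ) (hL : (univ.image F).card ≤ L) (hL0 : 1 ≤ L) :
    ∑ T, ((F T \ T).card : ℝ) ≤ 2 * ∑ T, ((F T ∩ T).card : ℝ) +
      2 * (2 ^ Fintype.card K * Real.logb 2 L) := by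
  set w : Finset K → ℝ := fun T => (Real.sqrt 2) ^ (F T \ T).card * (1 / 2 : ℝ) ^ (F T ∩ T).card
    with hw
  have hs : (0 : ℝ) < Real.sqrt 2 := by positivity
  have hw0 : ∀ T, 0 < w T := fun T => by positivity
  have hLr : (1 : ℝ) ≤ L := by exact_mod_cast hL0
  have h1 : ∑ T, w T ≤ L * 2 ^ Fintype.card K := by
    calc ∑ T, w T ≤ ∑ T, ∑ A ∈ univ.image F,
          (Real.sqrt 2) ^ (A \ T).card * (1 / 2 : ℝ) ^ (A ∩ T).card := by
          refine sum_le_sum fun T _ => ?_
          exact single_le_sum (f := fun A : Finset K =>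
            (Real.sqrt 2) ^ (A \ T).card * (1 / 2 : ℝ) ^ (A ∩ T).card)
            (fun A _ => by positivity) (mem_image_of_mem F (mem_univ T))
      _ = ∑ A ∈ univ.image F, ∑ T,
          (Real.sqrt 2) ^ (A \ T).card * (1 / 2 : ℝ) ^ (A ∩ T).card := sum_comm
      _ ≤ ∑ _A ∈ univ.image F, (2 : ℝ) ^ Fintype.card K := sum_le_sum fun A _ => sum_weight A
      _ = (univ.image F).card * 2 ^ Fintype.card K := by rw [sum_const, nsmul_eq_mul]
      _ ≤ L * 2 ^ Fintype.card K := by
          have : ((univ.image F).card : ℝ) ≤ L := by exact_mod_cast hL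
          gcongr
  have hlog2 : 0 < Real.log 2 := Real.log_pos (by norm_num)
  have h2 : ∀ T, (((F T \ T).card : ℝ) / 2 - (F T ∩ T).card) * Real.log 2 ≤
      w T / L - 1 + Real.log L := by
    intro T
    have h3 : Real.log (w T) = (((F T \ T).card : ℝ) / 2 - (F T ∩ T).card) * Real.log 2 := by
      rw [hw]
      simp only
      rw [Real.log_mul (by positivity) (by positivity), Real.log_pow, Real.log_pow,
        Real.log_sqrt (by norm_num), one_div, Real.log_inv]
      ring
    have h4 : Real.log (w T) - Real.log L ≤ w T / L - 1 := by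
      rw [← Real.log_div (hw0 T).ne' (by positivity)]
      exact Real.log_le_sub_one_of_pos (div_pos (hw0 T) (by positivity))
    rw [← h3]; linarith
  have hcard : ((univ : Finset (Finset K)).card : ℝ) = 2 ^ Fintype.card K := by
    rw [card_univ, Fintype.card_finset]; push_cast; rfl
  have h5 : (∑ T, ((F T \ T).card : ℝ) / 2 - ∑ T, ((F T ∩ T).card : ℝ)) * Real.log 2 ≤
      2 ^ Fintype.card K * Real.log L := by
    calc (∑ T, ((F T \ T).card : ℝ) / 2 - ∑ T, ((F T ∩ T).card : ℝ)) * Real.log 2
        = ∑ T, (((F T \ T).card : ℝ) / 2 - (F T ∩ T).card) * Real.log 2 := by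
          rw [← sum_sub_distrib, sum_mul]
      _ ≤ ∑ T, (w T / L - 1 + Real.log L) := sum_le_sum fun T _ => h2 T
      _ = (∑ T, w T) / L - 2 ^ Fintype.card K + 2 ^ Fintype.card K * Real.log L := by
          rw [sum_add_distrib, sum_sub_distrib, sum_div, sum_const, sum_const, nsmul_eq_mul,
            nsmul_eq_mul, hcard]
          ring
      _ ≤ 2 ^ Fintype.card K * Real.log L := by
          have h6 : (∑ T, w T) / L ≤ 2 ^ Fintype.card K := by
            rw [div_le_iff₀ (by positivity)]
            linarith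
          linarith
  have h7 : 2 ^ Fintype.card K * Real.log L = 2 ^ Fintype.card K * Real.logb 2 L * Real.log 2 := by
    rw [Real.logb]; field_simp
  rw [h7] at h5
  have h8 := le_of_mul_le_mul_right h5 hlog2
  rw [← sum_div] at h8
  linarith

/-- The same with the roles of `T` and its complement exchanged. -/
theorem ent' (F : Finset K → Finset K) (L : ℕ) (hL : (univ.image F).card ≤ L) (hL0 : 1 ≤ L) :
    ∑ T, ((F T ∩ T).card : ℝ) ≤ 2 * ∑ T, ((F T \ T).card : ℝ) +
      2 * (2 ^ Fintype.card K * Real.logb 2 L) := by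
  have h := ent (fun T => F Tᶜ) L (by
    refine (card_le_card ?_).trans hL
    intro A hA
    obtain ⟨T, -, rfl⟩ := mem_image.1 hA
    exact mem_image_of_mem F (mem_univ _)) hL0
  have e1 : ∑ T, ((F Tᶜ \ T).card : ℝ) = ∑ T, ((F T ∩ T).card : ℝ) := by
    rw [← Equiv.sum_comp (Equiv.ofBijective _ (compl_bijective (α := Finset K)))]
    refine sum_congr rfl fun T _ => ?_
    simp only [Equiv.ofBijective_apply, compl_compl]
    congr 2
    ext k; simp
  have e2 : ∑ T, ((F Tᶜ ∩ T).card : ℝ) = ∑ T, ((F T \ T).card : ℝ) := by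
    rw [← Equiv.sum_comp (Equiv.ofBijective _ (compl_bijective (α := Finset K)))]
    refine sum_congr rfl fun T _ => ?_
    simp only [Equiv.ofBijective_apply, compl_compl]
    congr 2
    ext k; simp
  rw [e1, e2] at h
  exact h

end Pool.Agent.H80.Cm
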