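import Pool.Agent.H80.Cm.Seq

/-!
# The bound for straight-line programs
-/

set_option linter.unusedSectionVars false

namespace Pool.Agent.H80.Cm

open Finset Pool.Agent.H587R2.MRB Classical

variable {p M : ℕ} {A : Type} {X : Type} [Preorder X]

theorem val_mono (l : List (Instr p M A)) {S : X → State p M A} (hS : Monotone S)
    (v : Place p M A) : Monotone (val l S v) := by
  intro x y hxy
  obtain ⟨n, a | ⟨i, r⟩⟩ := v
  · simp only [val]
    exact (stt_mono l n (hS hxy)).2 a
  · cases n with
    | zero => simp [val]
    | succ n =>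
      simp only [val]
      split_ifs with h
      · exact (stt_mono l (n + 1) (hS hxy)).1 i r
      · exact le_rfl

theorem loc_step (l : List (Instr p M A)) {S : X → State p M A} (i : Fin p) {n : ℕ}
    (hn : n < l.length) {x y : X}
    (h : ∀ v ∈ inS l (i, seg l i n), v.1 ≤ n → val l S v x ≤ val l S v y)
    (hloc : (stt l n (S x)).1 i ≤ (stt l n (S y)).1 i) :
    (stt l (n + 1) (S x)).1 i ≤ (stt l (n + 1) (S y)).1 i := by
  have hget : l[n]? = some l[n] := List.getElem?_eq_getElem hn
  rw [stt_succ, stt_succ, hget]
  simp only [Option.elim]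
  have hrd : ∀ v ∈ rdS l i n, val l S v x ≤ val l S v y := by
    intro v hv
    refine h v (mem_union_left _ (mem_biUnion.2 ⟨n, mem_filter.2 ⟨mem_range.2 hn, rfl⟩, hv⟩)) ?_
    unfold rdS at hv
    split at hv
    · split_ifs at hv
      · rw [mem_singleton] at hv
        rw [hv]
      · exact absurd hv (notMem_empty _)
    · exact absurd hv (notMem_empty _)
  cases hI : l[n] with
  | read j r a =>
    by_cases hj : i = j
    · subst hj
      have h1 := hrd (n, Sum.inl a) (by
        unfold rdS
        rw [hget, hI]
        simp)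
      simp only [val] at h1
      simp only [Instr.run, Function.update_self]
      intro r'
      by_cases hr : r' = r
      · subst hr
        simpa only [Function.update_self] using h1
      · simpa only [Function.update_of_ne hr] using hloc r'
    · simpa only [Instr.run, Function.update_of_ne hj] using hloc
  | write j a r => simpa only [Instr.run] using hloc
  | compute j f hf =>
    by_cases hj : i = j
    · subst hj
      simpa only [Instr.run, Function.update_self] using hf hloc
    · simpa only [Instr.run, Function.update_of_ne hj] using hloc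

theorem loc_dep (l : List (Instr p M A)) {S : X → State p M A}
    (hS0 : ∀ x y, (S x).1 = (S y).1) (i : Fin p) {n : ℕ} (hn : n ≤ l.length) {x y : X}
    (h : ∀ v ∈ inS l (i, seg l i n), v.1 ≤ n → val l S v x ≤ val l S v y) :
    (stt l n (S x)).1 i ≤ (stt l n (S y)).1 i := by
  induction n with
  | zero =>
    rw [stt_zero, stt_zero, hS0 x y]
  | succ n ih =>
    have hn' : n < l.length := hn
    by_cases hB : Bd l i n
    · intro r
      have h1 := h (n + 1, Sum.inr (i, r)) (mem_union_right _ (mem_biUnion.2
        ⟨n, mem_filter.2 ⟨mem_range.2 hn', rfl⟩, by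
          unfold bdS
          rw [if_pos hB]
          exact mem_image_of_mem _ (mem_univ r)⟩)) le_rfl
      simp only [val, hB, hn', and_self, if_true] at h1
      exact h1
    · have hB' : seg l i n = seg l i (n + 1) := by
        by_contra hcon
        exact hB hcon
      rw [← hB'] at h
      have h' : ∀ v ∈ inS l (i, seg l i n), v.1 ≤ n → val l S v x ≤ val l S v y :=
        fun v hv hvn => h v hv (by omega)
      exact loc_step l i hn' h' (ih hn'.le h')

theorem out_dep (l : List (Instr p M A)) {S : X → State p M A}
    (hS0 : ∀ x y, (S x).1 = (S y).1) (i : Fin p) (m : ℕ) {o : Place p M A}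
    (ho : o ∈ outS l (i, m)) (x y : X)
    (h : ∀ v ∈ inS l (i, m), v.1 < o.1 → val l S v x ≤ val l S v y) :
    val l S o x ≤ val l S o y := by
  rcases mem_union.1 ho with ho | ho
  · obtain ⟨n, hn, ho⟩ := mem_biUnion.1 ho
    rw [mem_filter, mem_range] at hn
    obtain ⟨hn, hm⟩ := hn
    simp only at hm
    subst hm
    have hget : l[n]? = some l[n] := List.getElem?_eq_getElem hn
    unfold wrS at ho
    rw [hget] at ho
    cases hI : l[n] with
    | read j r a => rw [hI] at ho; simp at ho
    | compute j f hf => rw [hI] at ho; simp at ho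
    | write j a r =>
      rw [hI] at ho
      by_cases hj : i = j
      · subst hj
        simp only [if_true, mem_singleton] at ho
        subst ho
        simp only [val]
        rw [stt_succ, stt_succ, hget, hI]
        simp only [Option.elim, Instr.run, Function.update_self]
        exact loc_dep l hS0 i hn.le (fun v hv hvn => h v hv (Nat.lt_succ_of_le hvn)) r
      · simp [hj] at ho
  · obtain ⟨n, hn, ho⟩ := mem_biUnion.1 ho
    rw [mem_filter, mem_range] at hn
    obtain ⟨hn, hm⟩ := hn
    simp only at hm
    subst hm
    unfold bdS at ho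
    by_cases hB : Bd l i n
    · simp only [hB, if_true, mem_image, mem_univ, true_and] at ho
      obtain ⟨r, rfl⟩ := ho
      simp only [val, hB, hn, and_self, if_true]
      have h' : ∀ v ∈ inS l (i, seg l i n), v.1 ≤ n → val l S v x ≤ val l S v y :=
        fun v hv hvn => h v hv (Nat.lt_succ_of_le hvn)
      exact loc_step l i hn h' (loc_dep l hS0 i hn.le h') r
    · simp [hB] at ho

theorem seg_lt (l : List (Instr p M A)) (i : Fin p) (n : ℕ) : seg l i n < n + 1 := by
  refine Nat.lt_succ_of_le ((Nat.div_le_self _ _).trans ?_)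
  calc cnt l i n ≤ ∑ _k ∈ range n, 1 := sum_le_sum fun k _ => cst_le_one l i k
    _ = n := by simp

variable {I J K : Type} [Fintype I] [Fintype J] [Fintype K]
  {τ : I → J → K → X} {ζ : I → J → Finset K → X}

theorem const_not_mixed {W : X → ℝ} (hW : ∀ x y, W x = W y) (i : I) (j : J) (k : K) :
    ¬ Mixed τ ζ W i j k := by
  rintro ⟨⟨T, hT, -⟩, -⟩
  rw [mem_dset, hW (τ i j k) (ζ i j T)] at hT
  exact lt_irrefl _ hT

theorem places_ok (l : List (Instr p M A)) {S : X → State p M A}
    (h0 : ∀ a i j k, ¬ Mixed τ ζ (fun x => (S x).2 a) i j k) (v : Place p M A) :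
    (∀ i j k, ¬ Mixed τ ζ (val l S v) i j k) ∨ (∃ v' : Place p M A, v'.1 < v.1 ∧
      val l S v' = val l S v) ∨ ∃ b : Fin p × Fin (l.length + 1), v ∈ outS l (b.1, b.2.val) := by
  obtain ⟨n, a | ⟨q, r⟩⟩ := v
  · cases n with
    | zero =>
      left
      intro i j k
      have h1 : val l S ((0, Sum.inl a) : Place p M A) = fun x => (S x).2 a := by
        funext x
        simp [val, stt_zero]
      rw [h1]
      exact h0 a i j k
    | succ n =>
      right
      by_cases hn : n < l.length
      · have hget : l[n]? = some l[n] := List.getElem?_eq_getElem hn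
        cases hI : l[n] with
        | read j r' a' =>
          left
          refine ⟨(n, Sum.inl a), Nat.lt_succ_self _, ?_⟩
          funext x
          simp only [val]
          rw [stt_succ, hget, hI]
          simp [Instr.run]
        | compute j f hf =>
          left
          refine ⟨(n, Sum.inl a), Nat.lt_succ_self _, ?_⟩
          funext x
          simp only [val]
          rw [stt_succ, hget, hI]
          simp [Instr.run]
        | write j a' r' =>
          by_cases ha : a = a'
          · right
            subst ha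
            refine ⟨(j, ⟨seg l j n, (seg_lt l j n).trans_le (by omega)⟩), ?_⟩
            refine mem_union_left _ (mem_biUnion.2 ⟨n, mem_filter.2 ⟨mem_range.2 hn, rfl⟩, ?_⟩)
            unfold wrS
            rw [hget, hI]
            simp
          · left
            refine ⟨(n, Sum.inl a), Nat.lt_succ_self _, ?_⟩
            funext x
            simp only [val]
            rw [stt_succ, hget, hI]
            simp [Instr.run, Function.update_of_ne ha]
      · left
        refine ⟨(n, Sum.inl a), Nat.lt_succ_self _, ?_⟩
        funext x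
        simp only [val]
        rw [stt_succ, List.getElem?_eq_none (not_lt.1 hn)]
        simp
  · cases n with
    | zero =>
      left
      intro i j k
      refine const_not_mixed (fun x y => ?_) i j k
      simp [val]
    | succ n =>
      by_cases hB : Bd l q n ∧ n < l.length
      · right; right
        refine ⟨(q, ⟨seg l q n, (seg_lt l q n).trans_le (by omega)⟩), ?_⟩
        refine mem_union_right _ (mem_biUnion.2 ⟨n, mem_filter.2 ⟨mem_range.2 hB.2, rfl⟩, ?_⟩)
        unfold bdS
        rw [if_pos hB.1]
        exact mem_image_of_mem _ (mem_univ r)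
      · left
        intro i j k
        refine const_not_mixed (fun x y => ?_) i j k
        simp [val, hB]

/-- The bound for a processor with `C` transfers, divided by `2 ^ N`. -/
noncomputable def chb (t M C : ℕ) : ℝ := C * (9 * √(min M C : ℕ) + 28 * t)

theorem bnd_le (hM : 1 ≤ M) (l : List (Instr p M A)) (i : Fin p) {N t : ℕ} (hN : N + 1 ≤ 2 ^ t)
    (ht : 1 ≤ t) :
    ∑ m : Fin (l.length + 1), bnd N (inS l (i, m.val)).card (outS l (i, m.val)).card t ≤
      2 ^ N * chb t M (cnt l i l.length) := by
  set C := cnt l i l.length with hC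
  have hlog : Real.logb 2 ((N : ℝ) + 1) ≤ t := by
    rw [Real.logb_le_iff_le_rpow (by norm_num) (by positivity), Real.rpow_natCast]
    exact_mod_cast hN
  have hlog0 : 0 ≤ Real.logb 2 ((N : ℝ) + 1) :=
    Real.logb_nonneg (by norm_num) (by linarith [N.cast_nonneg (α := ℝ)])
  have hp : ∑ m : Fin (l.length + 1), ((inS l (i, m.val)).card : ℝ) ≤ 2 * C := by
    exact_mod_cast sum_card_inS l i (l.length + 1)
  have hq : ∑ m : Fin (l.length + 1), ((outS l (i, m.val)).card : ℝ) ≤ 2 * C := by
    exact_mod_cast sum_card_outS l i (l.length + 1)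
  have hs : ∀ m : Fin (l.length + 1), √((outS l (i, m.val)).card : ℝ) ≤
      3 / 2 * √(min M C : ℕ) := by
    intro m
    have h1 : ((outS l (i, m.val)).card : ℝ) ≤ 2 * (min M C : ℕ) := by
      exact_mod_cast card_outS hM l i m.val
    calc √((outS l (i, m.val)).card : ℝ) ≤ √((3 / 2) ^ 2 * (min M C : ℕ)) := by
          apply Real.sqrt_le_sqrt
          have : (0 : ℝ) ≤ (min M C : ℕ) := Nat.cast_nonneg _
          nlinarith
      _ = 3 / 2 * √(min M C : ℕ) := by
          rw [Real.sqrt_mul (by positivity), Real.sqrt_sq (by norm_num)]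
  have hterm : ∀ m : Fin (l.length + 1),
      bnd N (inS l (i, m.val)).card (outS l (i, m.val)).card t ≤
        2 ^ N * ((9 / 2 * √(min M C : ℕ) + 3 * (t + 1) + 4 * t) * (inS l (i, m.val)).card +
          4 * t * (outS l (i, m.val)).card) := by
    intro m
    unfold bnd
    have e1 : √((outS l (i, m.val)).card : ℝ) * (inS l (i, m.val)).card ≤
        3 / 2 * √(min M C : ℕ) * (inS l (i, m.val)).card := by
      gcongr
      exact hs m
    have e2 : (((inS l (i, m.val)).card : ℝ) + (outS l (i, m.val)).card) *
        Real.logb 2 ((N : ℝ) + 1) ≤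
        (((inS l (i, m.val)).card : ℝ) + (outS l (i, m.val)).card) * t := by
      gcongr
    refine mul_le_mul_of_nonneg_left ?_ (by positivity)
    linarith
  calc ∑ m : Fin (l.length + 1), bnd N (inS l (i, m.val)).card (outS l (i, m.val)).card t
      ≤ ∑ m : Fin (l.length + 1),
        2 ^ N * ((9 / 2 * √(min M C : ℕ) + 3 * (t + 1) + 4 * t) * (inS l (i, m.val)).card +
          4 * t * (outS l (i, m.val)).card) := sum_le_sum fun m _ => hterm m
    _ = 2 ^ N * ((9 / 2 * √(min M C : ℕ) + 3 * (t + 1) + 4 * t) *
          ∑ m : Fin (l.length + 1), ((inS l (i, m.val)).card : ℝ) +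
          4 * t * ∑ m : Fin (l.length + 1), ((outS l (i, m.val)).card : ℝ)) := by
        rw [← mul_sum, sum_add_distrib, ← mul_sum, ← mul_sum]
    _ ≤ 2 ^ N * ((9 / 2 * √(min M C : ℕ) + 3 * (t + 1) + 4 * t) * (2 * C) +
          4 * t * (2 * C)) := by gcongr
    _ ≤ 2 ^ N * chb t M C := by
        unfold chb
        have ht' : (1 : ℝ) ≤ t := by exact_mod_cast ht
        refine mul_le_mul_of_nonneg_left ?_ (by positivity)
        have hC0 : (0 : ℝ) ≤ C := Nat.cast_nonneg _
        nlinarith

/-- The bound for straight-line programs. -/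
theorem lin_bound [Nonempty I] [Nonempty J] (h : Points τ ζ) {t : ℕ}
    (hN : Fintype.card K + 1 ≤ 2 ^ t) (ht : 1 ≤ t) (hM : 1 ≤ M) (l : List (Instr p M A))
    {S : X → State p M A} (hS : Monotone S) (hS0 : ∀ x y, (S x).1 = (S y).1)
    (h0 : ∀ a i j k, ¬ Mixed τ ζ (fun x => (S x).2 a) i j k) (out : I → J → A) :
    ((univ.filter fun q : Σ _ : I × J × K, Finset K =>
      (stt l l.length (S (τ q.1.1 q.1.2.1 q.1.2.2))).2 (out q.1.1 q.1.2.1) <
        (stt l l.length (S (ζ q.1.1 q.1.2.1 q.2))).2 (out q.1.1 q.1.2.1)).card : ℝ) ≤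
      2 ^ Fintype.card K * ∑ i, chb t M (cnt l i l.length) +
        Fintype.card I * Fintype.card J * (t + 2) * 2 ^ Fintype.card K := by
  have hN' : Fintype.card K ≤ 2 ^ t := by omega
  have h1 := output_bound h hN' (val l S)
    (fun i j x => (stt l l.length (S x)).2 (out i j))
    (fun i j x y hxy => (stt_mono l l.length (hS hxy)).2 _)
    (fun i j => ⟨(l.length, Sum.inl (out i j)), rfl⟩)
  have h2 := trace_bound h hN' (B := Fin p × Fin (l.length + 1)) (val l S) (val_mono l hS)
    (fun v => v.1) (fun b => inS l (b.1, b.2.val)) (fun b => outS l (b.1, b.2.val))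
    (fun b o ho x y hxy => out_dep l hS0 b.1 b.2.val ho x y hxy)
    (places_ok l h0)
  refine h1.trans (add_le_add (h2.trans ?_) le_rfl)
  rw [Fintype.sum_prod_type, mul_sum]
  exact sum_le_sum fun i _ => bnd_le hM l i hN ht

end Pool.Agent.H80.Cm
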