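import Mathlib

/-!
# Machines with local memories and a shared memory

There are `p` processors.  Each processor has a local memory of `M` registers, and there is a
shared memory with one register for each address `a : A`.  Registers hold real numbers.  A processor
may apply an arbitrary nondecreasing function to its whole local memory; this is free.  The only
cost is the number of transfers between the local memories and the shared memory.
-/

namespace Pool.Agent.H80.Cm

/-- The contents of all registers: `s.1 i r` is the content of the register `r` of the local memory
of the processor `i`, and `s.2 a` is the content of the register `a` of the shared memory. -/
abbrev State (p M : ℕ) (A : Type) : Type := (Fin p → Fin M → ℝ) × (A → ℝ)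

/-- The instructions. -/
inductive Instr (p M : ℕ) (A : Type) : Type
  /-- The processor `i` copies the shared register `a` into its local register `r`. -/
  | read (i : Fin p) (r : Fin M) (a : A) : Instr p M A
  /-- The processor `i` copies its local register `r` into the shared register `a`. -/
  | write (i : Fin p) (a : A) (r : Fin M) : Instr p M A
  /-- The processor `i` replaces the content of its local memory by its image under a
  nondecreasing function `f`. -/
  | compute (i : Fin p) (f : (Fin M → ℝ) → (Fin M → ℝ)) (hf : Monotone f) : Instr p M A

variable {p M : ℕ} {A O : Type}

open Classical in
/-- The effect of an instruction. -/
noncomputable def Instr.run : Instr p M A → State p M A → State p M A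
  | read i r a, s => (Function.update s.1 i (Function.update (s.1 i) r (s.2 a)), s.2)
  | write i a r, s => (s.1, Function.update s.2 a (s.1 i r))
  | compute i f _, s => (Function.update s.1 i (f (s.1 i)), s.2)

/-- The number of transfers of the processor `i` in an instruction. -/
def Instr.cost : Instr p M A → Fin p → ℕ
  | read j _ _, i => if i = j then 1 else 0
  | write j _ _, i => if i = j then 1 else 0
  | compute _ _ _, _ => 0

/-- Programs.  The instructions of a parallel program are written in the order of time. -/
inductive Prog (p M : ℕ) (A O : Type) : Type
  /-- The end: the output number `o` is in the shared register `out o`. -/
  | stop (out : O → A) : Prog p M A O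
  /-- Execute an instruction. -/
  | step (I : Instr p M A) (next : Prog p M A O) : Prog p M A O
  /-- Continue with `yes` if the contents of the registers satisfy `g`, and with `no` otherwise.
  Here `g` is an arbitrary monotone property of the contents of all registers. -/
  | test (g : State p M A → Prop) (hg : Monotone g) (yes no : Prog p M A O) : Prog p M A O

namespace Prog

/-- The number of leaves of the program: `1` if there are no tests, and at most `2 ^ t` if there
are at most `t` tests on every branch. -/
def leaves : Prog p M A O → ℕ
  | stop _ => 1
  | step _ next => next.leaves
  | test _ _ yes no => yes.leaves + no.leaves

open Classical in
/-- The number of transfers of the processor `i` in a run of the program.  Computations and tests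
are free. -/
noncomputable def transfers : Prog p M A O → State p M A → Fin p → ℕ
  | stop _, _, _ => 0
  | step I next, s, i => I.cost i + next.transfers (I.run s) i
  | test g _ yes no, s, i => if g s then yes.transfers s i else no.transfers s i

open Classical in
/-- The real number in the output register `o` at the end of a run. -/
noncomputable def answer : Prog p M A O → State p M A → O → ℝ
  | stop out, s, o => s.2 (out o)
  | step I next, s, o => next.answer (I.run s) o
  | test g _ yes no, s, o => if g s then yes.answer s o else no.answer s o

end Prog

end Pool.Agent.H80.Cm
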