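import Pool.Graph.R_seed8.H587R2.MRB.APSP
import Pool.Agent.H80.Cm.Defs
import Pool.Agent.H80.Cm.Avg

/-!
# The lower bound
-/

namespace Pool.Agent.H80.Cm

open Finset Pool.Agent.H587R2.MRB

theorem start_eq {n : ℕ} (np M : ℕ) (w : Fin n → Fin n → ℕ) :
    start np M w = (fun _ _ => 0, input w) := by
  refine Prod.ext rfl ?_
  funext a
  cases a <;> rfl

theorem walkLen_eq {n : ℕ} (w : Fin n → Fin n → ℕ) (u : Fin n) (l : List (Fin n)) (v : Fin n) :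
    walkLen w u l v = Pool.Agent.H587R2.MRB.walkLen w u l v := by
  induction l generalizing u with
  | nil => rfl
  | cons x l ih =>
    simp only [walkLen, Pool.Agent.H587R2.MRB.walkLen]
    rw [ih]

theorem distance_eq {n : ℕ} (w : Fin n → Fin n → ℕ) (u v : Fin n) :
    distance w u v = Pool.Agent.H587R2.MRB.dist w u v := by
  unfold distance Pool.Agent.H587R2.MRB.dist
  simp only [walkLen_eq]

/-- The expected value of the bound. -/
noncomputable def ex {np M n : ℕ} (t : ℕ) {Ω : Type} [Fintype Ω] (pr : Ω → ℝ)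
    (P : Ω → Prog np M ((Fin n × Fin n) ⊕ ℕ) (Fin n × Fin n)) (w : Fin n → Fin n → ℕ) : ℝ :=
  ∑ ω, pr ω * tot t M ((P ω).transfers (start np M w))

theorem param {n np M P a m W t : ℕ} {δ α : ℝ} (hn : 4 * P * a ≤ n) (hα : 1 ≤ α)
    (hW : 2 * α < W) (hN : a + 1 ≤ 2 ^ t) (ht : 1 ≤ t) (hM : 1 ≤ M) {Ω : Type} [Fintype Ω]
    (pr : Ω → ℝ) (Pr : Ω → Prog np M ((Fin n × Fin n) ⊕ ℕ) (Fin n × Fin n))
    (hS : SolvesAPSP W α δ pr Pr) (hm : ∀ ω, (Pr ω).leaves ≤ m) :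
    ∃ w : Fin n → Fin n → ℕ, (∀ u v, w u v = 1 ∨ w u v = W) ∧
      (P : ℝ) ^ 2 * (a : ℝ) ^ 3 * (2 * δ) ≤
        (P : ℝ) ^ 2 * ex t pr Pr w + (P : ℝ) ^ 2 * ((a : ℝ) ^ 2 * (t + 2)) +
          (m - 1) * (a : ℝ) ^ 3 := by
  classical
  obtain ⟨hp, hp1, hprob⟩ := hS
  have hcard : Fintype.card ((Fin P × Fin a) ⊕ ((Fin P × Fin a) ⊕ (Fin (2 * P) × Fin a))) ≤
      Fintype.card (Fin n) := by
    simp only [Fintype.card_sum, Fintype.card_prod, Fintype.card_fin]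
    linarith
  obtain ⟨e⟩ := Function.Embedding.nonempty_of_card_le hcard
  have hW1 : 1 ≤ W := by
    have : (2 : ℝ) < W := by linarith
    have : 2 < W := by exact_mod_cast this
    omega
  obtain ⟨x₀, hx₀⟩ := Finite.exists_max (fun x : Pt P a => ex t pr Pr (wt e W x))
  refine ⟨wt e W x₀, wt_values x₀, ?_⟩
  refine avg pr hp hp1 hN ht hM Pr hm (fun x => start np M (wt e W x)) ?_ (fun _ _ => rfl) ?_
    (fun i j => (e (Sum.inl i), e (Sum.inr (Sum.inl j))))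
    (fun ω x i j => Approx α (Pr ω) (wt e W x) (e (Sum.inl i)) (e (Sum.inr (Sum.inl j))))
    ?_ ?_ hx₀
  · intro x x' h
    simp only [start_eq]
    exact ⟨le_rfl, input_anti hW1 h⟩
  · intro R
    simp only [start_eq]
    exact input_dep R
  · intro ω x x' i j h1 h2 h3 h4
    have h5 : (distance (wt e W x) (e (Sum.inl i)) (e (Sum.inr (Sum.inl j))) : ℝ) ≤ 2 := by
      rw [distance_eq]
      exact_mod_cast dist_le_two (W := W) h3
    have h6 : (W : ℝ) ≤ distance (wt e W x') (e (Sum.inl i)) (e (Sum.inr (Sum.inl j))) := by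
      rw [distance_eq]
      exact_mod_cast le_dist (W := W) h4
    have h7 := h1.2
    have h8 := h2.1
    have h9 : α * (distance (wt e W x) (e (Sum.inl i)) (e (Sum.inr (Sum.inl j))) : ℝ) ≤ α * 2 := by
      gcongr
    linarith
  · intro x i j
    refine hprob _ (wt_values x) _ _ ?_
    simp

theorem bound {n np M m W : ℕ} {δ α : ℝ} (hM : 1 ≤ M) (hδ : 0 < δ) (hδ2 : δ ≤ 1 / 2)
    (hn : 10000 * (m : ℝ) * (Real.logb 2 n + 2) ^ 2 ≤ δ ^ 3 * n ^ 2)
    (hα : 1 ≤ α) (hW : 2 * α < W) {Ω : Type} [Fintype Ω] (pr : Ω → ℝ)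
    (Pr : Ω → Prog np M ((Fin n × Fin n) ⊕ ℕ) (Fin n × Fin n)) (hS : SolvesAPSP W α δ pr Pr)
    (hm : ∀ ω, (Pr ω).leaves ≤ m) :
    ∃ w : Fin n → Fin n → ℕ, (∀ u v, w u v = 1 ∨ w u v = W) ∧
      δ ^ (5 / 2 : ℝ) * (n : ℝ) ^ 3 ≤ 400 * (m : ℝ) ^ (3 / 2 : ℝ) *
        ∑ ω, pr ω * ∑ i, ((Pr ω).transfers (start np M w) i : ℝ) *
          (9 * √(min (M : ℝ) ((Pr ω).transfers (start np M w) i)) + 28 * Real.logb 2 n) := by
  classical
  have hS' := hS
  obtain ⟨hp, hp1, hprob⟩ := hS'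
  have hne : Nonempty Ω := by
    by_contra hcon
    rw [not_nonempty_iff] at hcon
    simp at hp1
  have hm1 : 1 ≤ m :=
    Nat.succ_le_of_lt (lt_of_lt_of_le (Pr (Classical.arbitrary Ω)).leaves_pos (hm _))
  have hm1' : (1 : ℝ) ≤ m := by exact_mod_cast hm1
  -- the logarithm
  have hn1 : 1 ≤ n := by
    by_contra hcon
    have : n = 0 := by omega
    subst this
    norm_num at hn
    linarith
  have hlam : 0 ≤ Real.logb 2 n := Real.logb_nonneg (by norm_num) (by exact_mod_cast hn1)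
  set L := Real.logb 2 n + 2 with hL
  have hL2 : 2 ≤ L := by linarith
  -- square roots
  set d := Real.sqrt δ with hd
  set μ := Real.sqrt m with hμ
  have hd2 : d ^ 2 = δ := Real.sq_sqrt hδ.le
  have hμ2 : μ ^ 2 = m := Real.sq_sqrt (by positivity)
  have hd0 : 0 < d := Real.sqrt_pos.2 hδ
  have hμ0 : 0 < μ := Real.sqrt_pos.2 (by linarith)
  have hd5 : δ ^ (5 / 2 : ℝ) = d ^ 5 := by
    rw [hd, Real.sqrt_eq_rpow, ← Real.rpow_natCast, ← Real.rpow_mul hδ.le]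
    norm_num
  have hμ3 : (m : ℝ) ^ (3 / 2 : ℝ) = μ ^ 3 := by
    rw [hμ, Real.sqrt_eq_rpow, ← Real.rpow_natCast, ← Real.rpow_mul (by positivity)]
    norm_num
  rw [hd5, hμ3]
  have hdle : d ^ 2 ≤ 1 / 2 := by rw [hd2]; exact hδ2
  have hμ1 : 1 ≤ μ ^ 2 := by rw [hμ2]; exact hm1'
  -- the size of `n`
  have hn0 : (0 : ℝ) ≤ n := by positivity
  have hnd : 100 * μ * L ≤ n * d ^ 3 := by
    have h1 : (100 * μ * L) ^ 2 ≤ (n * d ^ 3) ^ 2 := by
      have h2 : (n * d ^ 3) ^ 2 = δ ^ 3 * n ^ 2 := by rw [← hd2]; ring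
      have h3 : (100 * μ * L) ^ 2 = 10000 * (m : ℝ) * L ^ 2 := by rw [← hμ2]; ring
      rw [h2, h3]
      exact hn
    exact le_of_sq_le_sq h1 (by positivity)
  -- the number of blocks
  set P := ⌈μ / d⌉₊ with hP
  have hP1 : μ / d ≤ P := Nat.le_ceil _
  have hs : 2 ≤ (μ / d) ^ 2 := by
    rw [div_pow, le_div_iff₀ (by positivity)]
    nlinarith
  have hs0 : 0 < μ / d := by positivity
  have hs1 : 1 ≤ 0.7072 * (μ / d) := by
    have h1 : (1 : ℝ) ^ 2 ≤ (0.7072 * (μ / d)) ^ 2 := by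
      rw [mul_pow]; nlinarith
    exact le_of_sq_le_sq h1 (by positivity)
  have hP2 : (P : ℝ) ≤ 1.7072 * (μ / d) := by
    have h1 : (P : ℝ) < μ / d + 1 := Nat.ceil_lt_add_one hs0.le
    linarith
  have hP0 : (0 : ℝ) < P := lt_of_lt_of_le hs0 hP1
  have hP0' : 0 < P := by exact_mod_cast hP0
  have hPd : (P : ℝ) * d ≤ 1.7072 * μ := by
    calc (P : ℝ) * d ≤ 1.7072 * (μ / d) * d := by gcongr
      _ = 1.7072 * μ := by field_simp
  -- the size of the blocks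
  set a := n / (4 * P) with ha
  have han : 4 * P * a ≤ n := Nat.mul_div_le n (4 * P)
  -- lower bound for `a`
  set z := n * d / (6.8288 * μ) with hz
  have hz1 : z - 1 ≤ a := by
    have h2 : n < 4 * P * (a + 1) := Nat.lt_mul_div_succ n (by omega)
    have h3 : (n : ℝ) < 4 * P * (a + 1) := by exact_mod_cast h2
    have h4 : n * d ≤ 6.8288 * μ * (a + 1) := by
      calc n * d ≤ 4 * P * (a + 1) * d := by gcongr
        _ = 4 * (P * d) * (a + 1) := by ring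
        _ ≤ 4 * (1.7072 * μ) * (a + 1) := by gcongr
        _ = 6.8288 * μ * (a + 1) := by ring
    have h5 : z ≤ a + 1 := by
      rw [hz, div_le_iff₀ (by positivity)]
      linarith
    linarith
  have hz2 : 14.64 * L ≤ z * d ^ 2 := by
    rw [hz, div_mul_eq_mul_div, le_div_iff₀ (by positivity)]
    have : n * d * d ^ 2 = n * d ^ 3 := by ring
    rw [this]
    have h1 : 0 ≤ μ * L := by positivity
    nlinarith
  have hz0 : 0 < z := by
    by_contra hcon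
    push Not at hcon
    have : z * d ^ 2 ≤ 0 := mul_nonpos_of_nonpos_of_nonneg hcon (by positivity)
    linarith
  have hz3 : 29.28 * L ≤ z := by nlinarith
  have ha1 : 0.9658 * z ≤ a := by linarith
  have ha2 : 14.13 * L ≤ δ * a := by
    rw [← hd2]
    nlinarith
  have haR : (0 : ℝ) ≤ a := by positivity
  have ha56 : (56 : ℝ) ≤ a := by nlinarith
  have ha56' : 56 ≤ a := by exact_mod_cast ha56
  -- the logarithm of `a`
  set t := Nat.clog 2 (a + 1) with ht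
  have hN : a + 1 ≤ 2 ^ t := Nat.le_pow_clog (by norm_num) _
  have ht1 : 1 ≤ t := Nat.clog_pos (by norm_num) (by omega)
  have htn : 2 ^ t ≤ n := by
    have h1 : 2 ^ (t - 1) < a + 1 := Nat.pow_pred_clog_lt_self (by norm_num) (by omega)
    have h2 : 2 ^ t = 2 * 2 ^ (t - 1) := by
      rw [← pow_succ', Nat.sub_add_cancel ht1]
    have h3 : 4 * 1 * a ≤ 4 * P * a :=
      Nat.mul_le_mul_right _ (Nat.mul_le_mul_left _ hP0')
    omega
  have htL : (t : ℝ) ≤ Real.logb 2 n := by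
    rw [Real.le_logb_iff_rpow_le (by norm_num) (by exact_mod_cast hn1), Real.rpow_natCast]
    exact_mod_cast htn
  obtain ⟨w, hw, hmain⟩ := param (P := P) (a := a) (t := t) han hα hW hN ht1 hM pr Pr hS hm
  refine ⟨w, hw, ?_⟩
  set Φ := ∑ ω, pr ω * ∑ i, ((Pr ω).transfers (start np M w) i : ℝ) *
          (9 * √(min (M : ℝ) ((Pr ω).transfers (start np M w) i)) + 28 * Real.logb 2 n) with hΦ
  set c := ex t pr Pr w with hc
  have hcΦ : c ≤ Φ := by
    rw [hc, hΦ, ex]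
    refine sum_le_sum fun ω _ => mul_le_mul_of_nonneg_left ?_ (hp ω)
    unfold tot chb
    refine sum_le_sum fun i _ => ?_
    have h1 : ((min M ((Pr ω).transfers (start np M w) i) : ℕ) : ℝ) =
        min (M : ℝ) ((Pr ω).transfers (start np M w) i) := by push_cast; rfl
    rw [h1]
    gcongr
  have hmP : (m : ℝ) ≤ δ * P ^ 2 := by
    have h1 : (μ / d) ^ 2 ≤ (P : ℝ) ^ 2 := by gcongr
    rw [div_pow, hμ2, hd2, div_le_iff₀ hδ] at h1
    linarith
  have h1 : δ * (a : ℝ) ^ 3 - (a : ℝ) ^ 2 * (t + 2) ≤ c := by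
    have h2 : ((m : ℝ) - 1) * (a : ℝ) ^ 3 ≤ δ * P ^ 2 * (a : ℝ) ^ 3 := by
      have : (m : ℝ) - 1 ≤ δ * P ^ 2 := by linarith
      gcongr
    have h3 : (P : ℝ) ^ 2 * (δ * (a : ℝ) ^ 3 - (a : ℝ) ^ 2 * (t + 2)) ≤ (P : ℝ) ^ 2 * c := by
      linarith
    exact le_of_mul_le_mul_left h3 (by positivity)
  have ha3 : (0.9008 : ℝ) * z ^ 3 ≤ (a : ℝ) ^ 3 := by
    calc (0.9008 : ℝ) * z ^ 3 ≤ (0.9658 * z) ^ 3 := by
          rw [mul_pow]
          have : (0 : ℝ) ≤ z ^ 3 := by positivity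
          nlinarith
      _ ≤ _ := by gcongr
  have h2 : 0.929 * δ * (a : ℝ) ^ 3 ≤ c := by
    have h3 : (a : ℝ) ^ 2 * (t + 2) ≤ 0.071 * δ * (a : ℝ) ^ 3 := by
      have h4 : (t : ℝ) + 2 ≤ 0.071 * (δ * a) := by
        have : (t : ℝ) + 2 ≤ L := by rw [hL]; linarith
        linarith
      calc (a : ℝ) ^ 2 * (t + 2) ≤ (a : ℝ) ^ 2 * (0.071 * (δ * a)) := by gcongr
        _ = _ := by ring
    linarith
  have h3 : 0.8368 * d ^ 2 * z ^ 3 ≤ c := by
    have h5 : (0 : ℝ) ≤ d ^ 2 * z ^ 3 := by positivity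
    have h6 : (0.8368 : ℝ) ≤ 0.929 * 0.9008 := by norm_num
    calc 0.8368 * d ^ 2 * z ^ 3 = 0.8368 * (d ^ 2 * z ^ 3) := by ring
      _ ≤ (0.929 * 0.9008) * (d ^ 2 * z ^ 3) := mul_le_mul_of_nonneg_right h6 h5
      _ = 0.929 * δ * (0.9008 * z ^ 3) := by rw [← hd2]; ring
      _ ≤ 0.929 * δ * (a : ℝ) ^ 3 := mul_le_mul_of_nonneg_left ha3 (by positivity)
      _ ≤ c := h2
  have h4 : z * (6.8288 * μ) = n * d := by
    rw [hz]; field_simp
  calc d ^ 5 * (n : ℝ) ^ 3 = d ^ 2 * (n * d) ^ 3 := by ring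
    _ = d ^ 2 * (z * (6.8288 * μ)) ^ 3 := by rw [h4]
    _ = (6.8288 ^ 3 * d ^ 2 * z ^ 3) * μ ^ 3 := by ring
    _ ≤ (400 * (0.8368 * d ^ 2 * z ^ 3)) * μ ^ 3 := by
        have h5 : (0 : ℝ) ≤ d ^ 2 * z ^ 3 := by positivity
        have h6 : (6.8288 : ℝ) ^ 3 ≤ 400 * 0.8368 := by norm_num
        refine mul_le_mul_of_nonneg_right ?_ (by positivity)
        calc (6.8288 : ℝ) ^ 3 * d ^ 2 * z ^ 3 = (6.8288 : ℝ) ^ 3 * (d ^ 2 * z ^ 3) := by ring
          _ ≤ (400 * 0.8368) * (d ^ 2 * z ^ 3) := mul_le_mul_of_nonneg_right h6 h5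
          _ = _ := by ring
    _ ≤ (400 * c) * μ ^ 3 :=
        mul_le_mul_of_nonneg_right (mul_le_mul_of_nonneg_left h3 (by norm_num)) (by positivity)
    _ ≤ (400 * Φ) * μ ^ 3 := by gcongr
    _ = _ := by ring

end Pool.Agent.H80.Cm
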