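import Pool.Graph.R_seed8.H587R2.MRB.Core
import Pool.Agent.H80.Cm.Ent

/-!
# One register
-/

set_option linter.unusedSectionVars false

namespace Pool.Agent.H80.Cm

open Finset Pool.Agent.H587R2.MRB Classical

variable {X I J K : Type} [Fintype I] [Fintype J] [Fintype K] [Preorder X]
  {τ : I → J → K → X} {ζ : I → J → Finset K → X}

theorem ne_ne (h : Points τ ζ) {W : X → ℝ} (hW : Monotone W) {i i' : I} {j j' : J} {k k' : K}
    {T T' : Finset K} (hT : T ∈ dset τ ζ W i j k) (hT' : T' ∈ dset τ ζ W i' j' k') :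
    i = i' ∨ j = j' := by
  by_contra hcon
  rw [not_or] at hcon
  rw [mem_dset] at hT hT'
  have h6 := hW (h.diff i i' j j' k' T hcon.1 hcon.2)
  have h7 := hW (h.diff i' i j' j k T' (Ne.symm hcon.1) (Ne.symm hcon.2))
  linarith

/-- For each `k` there is at most one mixed pair. -/
theorem mixed_uniq (h : Points τ ζ) {W : X → ℝ} (hW : Monotone W) {i i' : I} {j j' : J} {k : K}
    (h1 : Mixed τ ζ W i j k) (h2 : Mixed τ ζ W i' j' k) : i = i' ∧ j = j' := by
  obtain ⟨T, hT, -⟩ := h1.1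
  obtain ⟨T', hT', -⟩ := h2.1
  rcases ne_ne h hW hT hT' with rfl | rfl
  · exact ⟨rfl, h.row_uniq hW h1 h2⟩
  · exact ⟨h.col_uniq hW h1 h2, rfl⟩

/-- All sets of the triple avoid `k`, and there is one. -/
def Zero (τ : I → J → K → X) (ζ : I → J → Finset K → X) (W : X → ℝ) (i : I) (j : J) (k : K) :
    Prop :=
  (dset τ ζ W i j k).Nonempty ∧ ∀ T ∈ dset τ ζ W i j k, k ∉ T

/-- All sets of the triple contain `k`, and there is one. -/
def One (τ : I → J → K → X) (ζ : I → J → Finset K → X) (W : X → ℝ) (i : I) (j : J) (k : K) :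
    Prop :=
  (dset τ ζ W i j k).Nonempty ∧ ∀ T ∈ dset τ ζ W i j k, k ∈ T

theorem zero_not_mixed {W : X → ℝ} {i : I} {j : J} {k : K} (h : Zero τ ζ W i j k) :
    ¬ Mixed τ ζ W i j k := by
  rintro ⟨⟨T, hT, hk⟩, -⟩
  exact h.2 T hT hk

theorem one_not_mixed {W : X → ℝ} {i : I} {j : J} {k : K} (h : One τ ζ W i j k) :
    ¬ Mixed τ ζ W i j k := by
  rintro ⟨-, ⟨T, hT, hk⟩⟩
  exact hk (h.2 T hT)

theorem zero_of_not_mem {W : X → ℝ} {i : I} {j : J} {k : K} {T : Finset K}
    (h : ¬ Mixed τ ζ W i j k) (hT : T ∈ dset τ ζ W i j k) (hk : k ∉ T) : Zero τ ζ W i j k :=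
  ⟨⟨T, hT⟩, fun S hS hkS => h ⟨⟨S, hS, hkS⟩, ⟨T, hT, hk⟩⟩⟩

theorem one_of_mem {W : X → ℝ} {i : I} {j : J} {k : K} {T : Finset K}
    (h : ¬ Mixed τ ζ W i j k) (hT : T ∈ dset τ ζ W i j k) (hk : k ∈ T) : One τ ζ W i j k :=
  ⟨⟨T, hT⟩, fun S hS => by_contra fun hkS => h ⟨⟨T, hT, hk⟩, ⟨S, hS, hkS⟩⟩⟩

theorem zero_row (h : Points τ ζ) {W : X → ℝ} (hW : Monotone W) {i i' : I} {j j' : J} {k : K}
    (h1 : Zero τ ζ W i j k) (h2 : Zero τ ζ W i' j' k) : i = i' := by
  obtain ⟨T, hT⟩ := h1.1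
  obtain ⟨T', hT'⟩ := h2.1
  by_contra hi
  rcases ne_ne h hW hT hT' with rfl | rfl
  · exact hi rfl
  · have h3 := h1.2 T hT
    have h4 := h2.2 T' hT'
    rw [mem_dset] at hT hT'
    have h6 := hW (h.col i i' j k T hi h3)
    have h7 := hW (h.col i' i j k T' (Ne.symm hi) h4)
    linarith

theorem one_col (h : Points τ ζ) {W : X → ℝ} (hW : Monotone W) {i i' : I} {j j' : J} {k : K}
    (h1 : One τ ζ W i j k) (h2 : One τ ζ W i' j' k) : j = j' := by
  obtain ⟨T, hT⟩ := h1.1
  obtain ⟨T', hT'⟩ := h2.1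
  by_contra hj
  rcases ne_ne h hW hT hT' with rfl | rfl
  · have h3 := h1.2 T hT
    have h4 := h2.2 T' hT'
    rw [mem_dset] at hT hT'
    have h6 := hW (h.row i j j' k T hj h3)
    have h7 := hW (h.row i j' j k T' (Ne.symm hj) h4)
    linarith
  · exact hj rfl

/-- The mass of `W` at the entry `(i, k)` of the first matrix. -/
noncomputable def xm (τ : I → J → K → X) (ζ : I → J → Finset K → X) (W : X → ℝ) (i : I) (k : K) :
    ℕ :=
  univ.sup fun j : J => if Zero τ ζ W i j k then (dset τ ζ W i j k).card else 0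

/-- The mass of `W` at the entry `(k, j)` of the second matrix. -/
noncomputable def ym (τ : I → J → K → X) (ζ : I → J → Finset K → X) (W : X → ℝ) (k : K) (j : J) :
    ℕ :=
  univ.sup fun i : I => if One τ ζ W i j k then (dset τ ζ W i j k).card else 0

theorem le_xm {W : X → ℝ} {i : I} {j : J} {k : K} (h : Zero τ ζ W i j k) :
    (dset τ ζ W i j k).card ≤ xm τ ζ W i k := by
  have := le_sup (f := fun j : J => if Zero τ ζ W i j k then (dset τ ζ W i j k).card else 0)
    (mem_univ j)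
  rw [if_pos h] at this
  exact this

theorem le_ym {W : X → ℝ} {i : I} {j : J} {k : K} (h : One τ ζ W i j k) :
    (dset τ ζ W i j k).card ≤ ym τ ζ W k j := by
  have := le_sup (f := fun i : I => if One τ ζ W i j k then (dset τ ζ W i j k).card else 0)
    (mem_univ i)
  rw [if_pos h] at this
  exact this

theorem sum_xm (h : Points τ ζ) {W : X → ℝ} (hW : Monotone W) :
    ∑ i, ∑ k, xm τ ζ W i k ≤ 2 ^ Fintype.card K := by
  rcases isEmpty_or_nonempty J with hJ | hJ
  · simp [xm]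
  have hex : ∀ p : I × K, ∃ j, xm τ ζ W p.1 p.2 =
      if Zero τ ζ W p.1 j p.2 then (dset τ ζ W p.1 j p.2).card else 0 := by
    intro p
    obtain ⟨j, -, hj⟩ := exists_mem_eq_sup (univ : Finset J) univ_nonempty
      (fun j : J => if Zero τ ζ W p.1 j p.2 then (dset τ ζ W p.1 j p.2).card else 0)
    exact ⟨j, hj⟩
  choose g hg using hex
  set s : Finset (I × J × K) :=
    (univ.filter fun p : I × K => Zero τ ζ W p.1 (g p) p.2).image fun p => (p.1, g p, p.2) with hs
  have hinj : Set.InjOn (fun p : I × K => (p.1, g p, p.2))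
      (univ.filter fun p : I × K => Zero τ ζ W p.1 (g p) p.2 : Finset (I × K)) := by
    rintro ⟨i, k⟩ _ ⟨i', k'⟩ _ heq
    simp only [Prod.mk.injEq] at heq ⊢
    exact ⟨heq.1, heq.2.2⟩
  have h1 : ∑ i, ∑ k, xm τ ζ W i k = ∑ p ∈ s, (dset τ ζ W p.1 p.2.1 p.2.2).card := by
    rw [hs, sum_image hinj, sum_filter, ← Fintype.sum_prod_type']
    exact sum_congr rfl fun p _ => hg p
  rw [h1]
  refine h.sum_le hW s ?_ ?_
  · intro p hp
    obtain ⟨q, hq, rfl⟩ := mem_image.1 hp
    exact zero_not_mixed (mem_filter.1 hq).2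
  · intro p hp q hq hne hk hor
    obtain ⟨⟨i, k⟩, hp1, rfl⟩ := mem_image.1 hp
    obtain ⟨⟨i', k'⟩, hq1, rfl⟩ := mem_image.1 hq
    have hp' := (mem_filter.1 hp1).2
    have hq' := (mem_filter.1 hq1).2
    simp only at hk hp' hq' hne
    subst hk
    have := zero_row h hW hp' hq'
    subst this
    exact hne rfl

theorem sum_ym (h : Points τ ζ) {W : X → ℝ} (hW : Monotone W) :
    ∑ k, ∑ j, ym τ ζ W k j ≤ 2 ^ Fintype.card K := by
  rcases isEmpty_or_nonempty I with hI | hI
  · simp [ym]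
  have hex : ∀ p : K × J, ∃ i, ym τ ζ W p.1 p.2 =
      if One τ ζ W i p.2 p.1 then (dset τ ζ W i p.2 p.1).card else 0 := by
    intro p
    obtain ⟨j, -, hj⟩ := exists_mem_eq_sup (univ : Finset I) univ_nonempty
      (fun i : I => if One τ ζ W i p.2 p.1 then (dset τ ζ W i p.2 p.1).card else 0)
    exact ⟨j, hj⟩
  choose g hg using hex
  set s : Finset (I × J × K) :=
    (univ.filter fun p : K × J => One τ ζ W (g p) p.2 p.1).image fun p => (g p, p.2, p.1) with hs
  have hinj : Set.InjOn (fun p : K × J => (g p, p.2, p.1))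
      (univ.filter fun p : K × J => One τ ζ W (g p) p.2 p.1 : Finset (K × J)) := by
    rintro ⟨i, k⟩ _ ⟨i', k'⟩ _ heq
    simp only [Prod.mk.injEq] at heq ⊢
    exact ⟨heq.2.2, heq.2.1⟩
  have h1 : ∑ k, ∑ j, ym τ ζ W k j = ∑ p ∈ s, (dset τ ζ W p.1 p.2.1 p.2.2).card := by
    rw [hs, sum_image hinj, sum_filter, ← Fintype.sum_prod_type']
    exact sum_congr rfl fun p _ => hg p
  rw [h1]
  refine h.sum_le hW s ?_ ?_
  · intro p hp
    obtain ⟨q, hq, rfl⟩ := mem_image.1 hp
    exact one_not_mixed (mem_filter.1 hq).2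
  · intro p hp q hq hne hk hor
    obtain ⟨⟨k, j⟩, hp1, rfl⟩ := mem_image.1 hp
    obtain ⟨⟨k', j'⟩, hq1, rfl⟩ := mem_image.1 hq
    have hp' := (mem_filter.1 hp1).2
    have hq' := (mem_filter.1 hq1).2
    simp only at hk hp' hq' hne
    subst hk
    have := one_col h hW hp' hq'
    subst this
    exact hne rfl

/-! ### The main pair -/

/-- The mixed triples. -/
noncomputable def mx (τ : I → J → K → X) (ζ : I → J → Finset K → X) (W : X → ℝ) :
    Finset (I × J × K) :=
  univ.filter fun p => Mixed τ ζ W p.1 p.2.1 p.2.2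

theorem mx_inj (h : Points τ ζ) {W : X → ℝ} (hW : Monotone W) :
    Set.InjOn (fun p : I × J × K => p.2.2) (mx τ ζ W : Set (I × J × K)) := by
  rintro ⟨i, j, k⟩ hp ⟨i', j', k'⟩ hq heq
  simp only at heq
  subst heq
  rw [mem_coe, mx, mem_filter] at hp hq
  obtain ⟨rfl, rfl⟩ := mixed_uniq h hW hp.2 hq.2
  rfl

theorem card_mx (h : Points τ ζ) {W : X → ℝ} (hW : Monotone W) :
    (mx τ ζ W).card ≤ Fintype.card K := by
  rw [← card_univ]
  exact card_le_card_of_injOn _ (fun _ _ => mem_univ _) (mx_inj h hW)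

/-- The mixed triples of other pairs which are not larger at the true point. -/
noncomputable def dom (τ : I → J → K → X) (ζ : I → J → Finset K → X) (W : X → ℝ)
    (b : I × J × K) : Finset (I × J × K) :=
  (mx τ ζ W).filter fun a => W (τ a.1 a.2.1 a.2.2) ≤ W (τ b.1 b.2.1 b.2.2) ∧
    (a.1, a.2.1) ≠ (b.1, b.2.1)

theorem dom_spec (h : Points τ ζ) {W : X → ℝ} (hW : Monotone W) {a b : I × J × K}
    (ha : a ∈ dom τ ζ W b) {T : Finset K} (hT : T ∈ dset τ ζ W b.1 b.2.1 b.2.2) :
    (a.2.2 ∈ T ↔ a.1 ≠ b.1) := by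
  obtain ⟨i', j', k'⟩ := a
  obtain ⟨i, j, k⟩ := b
  rw [dom, mem_filter] at ha
  simp only at ha hT ⊢
  obtain ⟨-, hle, hne⟩ := ha
  rw [mem_dset] at hT
  by_cases hi : i = i'
  · subst hi
    have hj : j ≠ j' := fun hj => hne (by rw [hj])
    simp only [ne_eq, not_true_eq_false, iff_false]
    intro hk
    have := hW (h.row i j j' k' T hj hk)
    linarith
  · have hi' : i' ≠ i := fun hh => hi hh.symm
    simp only [ne_eq, hi', not_false_eq_true, iff_true]
    by_contra hk
    by_cases hj : j = j'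
    · subst hj
      have := hW (h.col i i' j k' T hi hk)
      linarith
    · have := hW (h.diff i i' j j' k' T hi hj)
      linarith

theorem card_dset_dom (h : Points τ ζ) {W : X → ℝ} (hW : Monotone W) (b : I × J × K) :
    (dset τ ζ W b.1 b.2.1 b.2.2).card * 2 ^ (dom τ ζ W b).card ≤ 2 ^ Fintype.card K := by
  set κ : Finset K := (dom τ ζ W b).image fun a => a.2.2 with hκ
  have hκc : κ.card = (dom τ ζ W b).card := by
    rw [hκ]
    exact card_image_of_injOn ((mx_inj h hW).mono (by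
      intro a ha
      rw [mem_coe, dom, mem_filter] at ha
      exact ha.1))
  have hdet : ∀ T ∈ dset τ ζ W b.1 b.2.1 b.2.2, ∀ T' ∈ dset τ ζ W b.1 b.2.1 b.2.2, ∀ k ∈ κ,
      (k ∈ T ↔ k ∈ T') := by
    intro T hT T' hT' k hk
    obtain ⟨a, ha, rfl⟩ := mem_image.1 hk
    rw [dom_spec h hW ha hT, dom_spec h hW ha hT']
  have h1 : ((dset τ ζ W b.1 b.2.1 b.2.2) ×ˢ κ.powerset).card ≤
      (univ : Finset (Finset K)).card := by
    refine card_le_card_of_injOn (fun p => (p.1 \ κ) ∪ p.2) (fun _ _ => mem_univ _) ?_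
    rintro ⟨T, A⟩ hp ⟨T', A'⟩ hq heq
    rw [mem_coe, mem_product, mem_powerset] at hp hq
    simp only at hp hq heq
    have hA : A = A' := by
      ext k
      by_cases hk : k ∈ κ
      · have := congrArg (fun F => k ∈ F) heq
        simpa [hk] using this
      · exact iff_of_false (fun hh => hk (hp.2 hh)) (fun hh => hk (hq.2 hh))
    subst hA
    have hTT : T = T' := by
      ext k
      by_cases hk : k ∈ κ
      · exact hdet T hp.1 T' hq.1 k hk
      · have hkA : k ∉ A := fun hh => hk (hp.2 hh)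
        have := congrArg (fun F => k ∈ F) heq
        simpa [hk, hkA] using this
    rw [hTT]
  rw [card_product, card_powerset, card_univ, Fintype.card_finset, hκc] at h1
  exact h1

/-- There is a pair such that the other pairs have little mixed mass. -/
theorem exists_main [Nonempty I] [Nonempty J] (h : Points τ ζ) {W : X → ℝ} (hW : Monotone W)
    {t : ℕ} (ht : Fintype.card K ≤ 2 ^ t) :
    ∃ m : I × J, ∑ p ∈ (mx τ ζ W).filter (fun p => (p.1, p.2.1) ≠ m),
      (dset τ ζ W p.1 p.2.1 p.2.2).card ≤ (t + 1) * 2 ^ Fintype.card K := by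
  set H := (mx τ ζ W).filter fun b => (dom τ ζ W b).card ≤ t with hH
  have hlight : ∀ s : Finset (I × J × K), s ⊆ mx τ ζ W → (∀ b ∈ s, ¬ (dom τ ζ W b).card ≤ t) →
      ∑ p ∈ s, (dset τ ζ W p.1 p.2.1 p.2.2).card ≤ 2 ^ Fintype.card K := by
    intro s hs hs'
    have h1 : (∑ p ∈ s, (dset τ ζ W p.1 p.2.1 p.2.2).card) * 2 ^ t ≤
        2 ^ Fintype.card K * 2 ^ t := by
      calc (∑ p ∈ s, (dset τ ζ W p.1 p.2.1 p.2.2).card) * 2 ^ t
          = ∑ p ∈ s, (dset τ ζ W p.1 p.2.1 p.2.2).card * 2 ^ t := sum_mul _ _ _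
        _ ≤ ∑ _p ∈ s, 2 ^ Fintype.card K := by
            refine sum_le_sum fun p hp => ?_
            refine le_trans ?_ (card_dset_dom h hW p)
            exact Nat.mul_le_mul_left _ (Nat.pow_le_pow_right (by norm_num)
              (le_of_lt (not_le.1 (hs' p hp))))
        _ = s.card * 2 ^ Fintype.card K := by rw [sum_const, smul_eq_mul]
        _ ≤ 2 ^ t * 2 ^ Fintype.card K :=
            Nat.mul_le_mul_right _ (((card_le_card hs).trans (card_mx h hW)).trans ht)
        _ = _ := mul_comm _ _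
    exact Nat.le_of_mul_le_mul_right h1 (by positivity)
  rcases H.eq_empty_or_nonempty with hE | hne
  · refine ⟨Classical.arbitrary _, ?_⟩
    refine (hlight _ (filter_subset _ _) ?_).trans ?_
    · intro b hb hb'
      have : b ∈ H := mem_filter.2 ⟨(mem_filter.1 hb).1, hb'⟩
      rw [hE] at this
      exact absurd this (notMem_empty _)
    · exact Nat.le_mul_of_pos_left _ (by omega)
  · obtain ⟨c, hc, hmax⟩ := exists_max_image H (fun b => W (τ b.1 b.2.1 b.2.2)) hne
    refine ⟨(c.1, c.2.1), ?_⟩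
    set N := (mx τ ζ W).filter (fun p : I × J × K => (p.1, p.2.1) ≠ (c.1, c.2.1)) with hN
    rw [← sum_filter_add_sum_filter_not N (fun b => (dom τ ζ W b).card ≤ t)]
    have h1 : (N.filter fun b => (dom τ ζ W b).card ≤ t).card ≤ t := by
      refine le_trans (card_le_card ?_) (mem_filter.1 hc).2
      intro a ha
      rw [mem_filter, hN, mem_filter] at ha
      rw [dom, mem_filter]
      exact ⟨ha.1.1, hmax a (mem_filter.2 ⟨ha.1.1, ha.2⟩), ha.1.2⟩
    have h2 : ∑ p ∈ N.filter (fun b => (dom τ ζ W b).card ≤ t),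
        (dset τ ζ W p.1 p.2.1 p.2.2).card ≤ t * 2 ^ Fintype.card K := by
      calc ∑ p ∈ N.filter (fun b => (dom τ ζ W b).card ≤ t), (dset τ ζ W p.1 p.2.1 p.2.2).card
          ≤ ∑ _p ∈ N.filter (fun b => (dom τ ζ W b).card ≤ t), 2 ^ Fintype.card K := by
            refine sum_le_sum fun p _ => ?_
            refine (card_le_univ _).trans ?_
            rw [Fintype.card_finset]
        _ = (N.filter fun b => (dom τ ζ W b).card ≤ t).card * 2 ^ Fintype.card K := by
            rw [sum_const, smul_eq_mul]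
        _ ≤ _ := Nat.mul_le_mul_right _ h1
    have h3 := hlight (N.filter fun b => ¬ (dom τ ζ W b).card ≤ t)
      ((filter_subset _ _).trans (filter_subset _ _)) (fun b hb => (mem_filter.1 hb).2)
    calc _ ≤ t * 2 ^ Fintype.card K + 2 ^ Fintype.card K := add_le_add h2 h3
      _ = _ := by ring

end Pool.Agent.H80.Cm
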