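import Pool.Agent.H80.Cm.Tot

/-!
# A computation with many blocks
-/

set_option linter.unusedSectionVars false

namespace Pool.Agent.H80.Cm

open Finset Pool.Agent.H587R2.MRB Classical

variable {X I J K : Type} [Fintype I] [Fintype J] [Fintype K] [Preorder X]
  {τ : I → J → K → X} {ζ : I → J → Finset K → X}

/-- The main pair of a register. -/
noncomputable def mainPair [Nonempty I] [Nonempty J] (τ : I → J → K → X) (ζ : I → J → Finset K → X)
    (t : ℕ) (W : X → ℝ) : I × J :=
  if h : ∃ m : I × J, ∑ p ∈ (mx τ ζ W).filter (fun p => (p.1, p.2.1) ≠ m),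
      (dset τ ζ W p.1 p.2.1 p.2.2).card ≤ (t + 1) * 2 ^ Fintype.card K
  then h.choose else Classical.arbitrary _

variable [Nonempty I] [Nonempty J]

theorem mainPair_spec (h : Points τ ζ) {W : X → ℝ} (hW : Monotone W) {t : ℕ}
    (ht : Fintype.card K ≤ 2 ^ t) :
    ∑ p ∈ (mx τ ζ W).filter (fun p => (p.1, p.2.1) ≠ mainPair τ ζ t W),
      (dset τ ζ W p.1 p.2.1 p.2.2).card ≤ (t + 1) * 2 ^ Fintype.card K := by
  have h1 := exists_main h hW ht
  unfold mainPair
  rw [dif_pos h1]
  exact h1.choose_spec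

/-- The register is good for the triple and the set. -/
def Good (τ : I → J → K → X) (ζ : I → J → Finset K → X) (t : ℕ) (W : X → ℝ)
    (q : Σ _ : I × J × K, Finset K) : Prop :=
  mainPair τ ζ t W = (q.1.1, q.1.2.1) ∧ q.1.2.2 ∈ mset τ ζ W q.1.1 q.1.2.1 q.2

theorem trace_bound (h : Points τ ζ) {t : ℕ} (ht : Fintype.card K ≤ 2 ^ t) {Λ B : Type}
    [Fintype B] (V : Λ → X → ℝ) (hV : ∀ l, Monotone (V l)) (rank : Λ → ℕ)
    (In Out : B → Finset Λ)
    (hdet : ∀ b, ∀ o ∈ Out b, ∀ x y, (∀ r ∈ In b, rank r < rank o → V r x ≤ V r y) →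
      V o x ≤ V o y)
    (hΛ : ∀ l, (∀ i j k, ¬ Mixed τ ζ (V l) i j k) ∨ (∃ l', rank l' < rank l ∧ V l' = V l) ∨
      ∃ b, l ∈ Out b) :
    ((univ.filter fun q : Σ _ : I × J × K, Finset K => ∃ l, Good τ ζ t (V l) q).card : ℝ) ≤
      ∑ b, bnd (Fintype.card K) (In b).card (Out b).card t := by
  let mR : ∀ b, {r // r ∈ In b} → I × J := fun b r => mainPair τ ζ t (V r.1)
  let mO : ∀ b, {o // o ∈ Out b} → I × J := fun b o => mainPair τ ζ t (V o.1)
  let pr : ∀ b, {r // r ∈ In b} → {o // o ∈ Out b} → Prop := fun b r o => rank r.1 < rank o.1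
  let C : B → Finset (Σ _ : I × J × K, Finset K) := fun b =>
    univ.filter fun q => q.1.2.2 ∈ chg τ ζ (pr b) (fun r => V r.1) (fun o => V o.1) (mR b) (mO b)
      q.1.1 q.1.2.1 q.2
  have hC : ∀ b, ((C b).card : ℝ) = ∑ p : I × J, ∑ T, ((chg τ ζ (pr b) (fun r => V r.1)
      (fun o => V o.1) (mR b) (mO b) p.1 p.2 T).card : ℝ) := by
    intro b
    have h1 : (C b).card = ∑ p : I × J, ∑ T, (chg τ ζ (pr b) (fun r => V r.1)
      (fun o => V o.1) (mR b) (mO b) p.1 p.2 T).card := by
      calc (C b).card = ∑ q : Σ _ : I × J × K, Finset K, if q.1.2.2 ∈ chg τ ζ (pr b)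
            (fun r => V r.1) (fun o => V o.1) (mR b) (mO b) q.1.1 q.1.2.1 q.2 then 1 else 0 := by
            rw [card_filter]
        _ = ∑ a : I × J × K, ∑ T, if a.2.2 ∈ chg τ ζ (pr b)
            (fun r => V r.1) (fun o => V o.1) (mR b) (mO b) a.1 a.2.1 T then 1 else 0 := by
            rw [Fintype.sum_sigma]
        _ = ∑ x : (I × J) × K, ∑ T, if x.2 ∈ chg τ ζ (pr b)
            (fun r => V r.1) (fun o => V o.1) (mR b) (mO b) x.1.1 x.1.2 T then 1 else 0 :=
            (Equiv.sum_comp (Equiv.prodAssoc I J K) fun a : I × J × K => ∑ T, if a.2.2 ∈ chg τ ζ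
              (pr b) (fun r => V r.1) (fun o => V o.1) (mR b) (mO b) a.1 a.2.1 T then 1
              else 0).symm
        _ = ∑ p : I × J, ∑ k, ∑ T, if k ∈ chg τ ζ (pr b)
            (fun r => V r.1) (fun o => V o.1) (mR b) (mO b) p.1 p.2 T then 1 else 0 := by
            rw [Fintype.sum_prod_type]
        _ = _ := by
            refine sum_congr rfl fun p _ => ?_
            rw [sum_comm]
            refine sum_congr rfl fun T _ => ?_
            rw [← sum_filter, ← card_eq_sum_ones]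
            congr 1
            ext k; simp
    rw [h1]; push_cast; rfl
  have hsub : (univ.filter fun q : Σ _ : I × J × K, Finset K => ∃ l, Good τ ζ t (V l) q) ⊆
      univ.biUnion C := by
    intro q hq
    have hex := (mem_filter.1 hq).2
    have hex' : ∃ n, ∃ l, rank l = n ∧ Good τ ζ t (V l) q := by
      obtain ⟨l, hl⟩ := hex
      exact ⟨_, l, rfl, hl⟩
    obtain ⟨l, hl, hg⟩ := Nat.find_spec hex'
    have hmin : ∀ l', rank l' < rank l → ¬ Good τ ζ t (V l') q := by
      intro l' hl' hg'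
      rw [hl] at hl'
      exact Nat.find_min hex' hl' ⟨l', rfl, hg'⟩
    rcases hΛ l with h1 | ⟨l', h1, h2⟩ | ⟨b, hb⟩
    · exfalso
      have h2 := hg.2
      simp only [mset, mem_filter] at h2
      exact h1 _ _ _ h2.2.1
    · exact absurd (h2 ▸ hg) (hmin l' h1)
    · refine mem_biUnion.2 ⟨b, mem_univ _, ?_⟩
      simp only [C, chg, mem_filter, mem_univ, true_and]
      exact ⟨⟨l, hb⟩, hg.1, hg.2, fun r hr hr' hr'' => hmin r.1 hr ⟨hr', hr''⟩⟩
  calc ((univ.filter fun q : Σ _ : I × J × K, Finset K => ∃ l, Good τ ζ t (V l) q).card : ℝ)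
      ≤ ((univ.biUnion C).card : ℝ) := by exact_mod_cast card_le_card hsub
    _ ≤ ∑ b, ((C b).card : ℝ) := by exact_mod_cast card_biUnion_le
    _ ≤ _ := by
        refine sum_le_sum fun b _ => ?_
        rw [hC]
        have h3 := block_bound (pr := pr b) (R := fun r : {r // r ∈ In b} => V r.1)
          (O := fun o : {o // o ∈ Out b} => V o.1) (mR := mR b) (mO := mO b) (t := t) h
          (fun r => hV r.1)
          (fun o x y hxy => hdet b o.1 o.2 x y fun r hr hr' => hxy ⟨r, hr⟩ hr')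
          (fun r => mainPair_spec h (hV r.1) ht)
        rw [Fintype.card_coe, Fintype.card_coe] at h3
        exact h3

/-- The number of the triples and sets for which the outputs distinguish the two points. -/
theorem output_bound (h : Points τ ζ) {t : ℕ} (ht : Fintype.card K ≤ 2 ^ t) {Λ : Type}
    (V : Λ → X → ℝ) (W : I → J → X → ℝ) (hW : ∀ i j, Monotone (W i j))
    (hWV : ∀ i j, ∃ l, V l = W i j) :
    ((univ.filter fun q : Σ _ : I × J × K, Finset K =>
      W q.1.1 q.1.2.1 (τ q.1.1 q.1.2.1 q.1.2.2) < W q.1.1 q.1.2.1 (ζ q.1.1 q.1.2.1 q.2)).card : ℝ)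
      ≤ ((univ.filter fun q : Σ _ : I × J × K, Finset K => ∃ l, Good τ ζ t (V l) q).card : ℝ) +
        Fintype.card I * Fintype.card J * (t + 2) * 2 ^ Fintype.card K := by
  let s : I × J → Finset (I × J × K) := fun p =>
    (univ.filter fun k => ¬ Mixed τ ζ (W p.1 p.2) p.1 p.2 k).image fun k => (p.1, p.2, k)
  let s' : I × J → Finset (I × J × K) := fun p =>
    (mx τ ζ (W p.1 p.2)).filter (fun a => (a.1, a.2.1) ≠ mainPair τ ζ t (W p.1 p.2))
  let U : Finset (Σ _ : I × J × K, Finset K) := univ.biUnion fun p : I × J =>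
    (s p).sigma fun q => dset τ ζ (W p.1 p.2) q.1 q.2.1 q.2.2
  let U' : Finset (Σ _ : I × J × K, Finset K) := univ.biUnion fun p : I × J =>
    (s' p).sigma fun q => dset τ ζ (W p.1 p.2) q.1 q.2.1 q.2.2
  have hU : U.card ≤ Fintype.card I * Fintype.card J * 2 ^ Fintype.card K := by
    refine card_biUnion_le.trans ?_
    calc ∑ p : I × J, ((s p).sigma fun q => dset τ ζ (W p.1 p.2) q.1 q.2.1 q.2.2).card
        ≤ ∑ _p : I × J, 2 ^ Fintype.card K := by
          refine sum_le_sum fun p _ => ?_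
          rw [card_sigma]
          refine h.sum_le (hW p.1 p.2) (s p) ?_ ?_
          · intro q hq
            obtain ⟨k, hk, rfl⟩ := mem_image.1 hq
            exact (mem_filter.1 hk).2
          · intro q hq q' hq' hne hk _
            obtain ⟨k, _, rfl⟩ := mem_image.1 hq
            obtain ⟨k', _, rfl⟩ := mem_image.1 hq'
            simp only at hk
            exact hne (by rw [hk])
      _ = _ := by rw [sum_const, card_univ, Fintype.card_prod, smul_eq_mul]
  have hU' : U'.card ≤ Fintype.card I * Fintype.card J * ((t + 1) * 2 ^ Fintype.card K) := by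
    refine card_biUnion_le.trans ?_
    calc ∑ p : I × J, ((s' p).sigma fun q => dset τ ζ (W p.1 p.2) q.1 q.2.1 q.2.2).card
        ≤ ∑ _p : I × J, (t + 1) * 2 ^ Fintype.card K := by
          refine sum_le_sum fun p _ => ?_
          rw [card_sigma]
          exact mainPair_spec h (hW p.1 p.2) ht
      _ = _ := by rw [sum_const, card_univ, Fintype.card_prod, smul_eq_mul]
  have hsub : (univ.filter fun q : Σ _ : I × J × K, Finset K =>
      W q.1.1 q.1.2.1 (τ q.1.1 q.1.2.1 q.1.2.2) < W q.1.1 q.1.2.1 (ζ q.1.1 q.1.2.1 q.2)) ⊆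
      (univ.filter fun q : Σ _ : I × J × K, Finset K => ∃ l, Good τ ζ t (V l) q) ∪ (U ∪ U') := by
    rintro ⟨⟨i, j, k⟩, T⟩ hq
    have hT : T ∈ dset τ ζ (W i j) i j k := mem_dset.2 (mem_filter.1 hq).2
    by_cases hm : Mixed τ ζ (W i j) i j k
    · by_cases hp : mainPair τ ζ t (W i j) = (i, j)
      · refine mem_union_left _ (mem_filter.2 ⟨mem_univ _, ?_⟩)
        obtain ⟨l, hl⟩ := hWV i j
        refine ⟨l, ?_⟩
        rw [hl]
        refine ⟨hp, ?_⟩
        simp only [mset, mem_filter, mem_univ, true_and]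
        exact ⟨hm, hT⟩
      · refine mem_union_right _ (mem_union_right _ (mem_biUnion.2 ⟨(i, j), mem_univ _, ?_⟩))
        rw [mem_sigma]
        exact ⟨mem_filter.2 ⟨mem_filter.2 ⟨mem_univ _, hm⟩, fun hh => hp hh.symm⟩, hT⟩
    · refine mem_union_right _ (mem_union_left _ (mem_biUnion.2 ⟨(i, j), mem_univ _, ?_⟩))
      rw [mem_sigma]
      exact ⟨mem_image.2 ⟨k, mem_filter.2 ⟨mem_univ _, hm⟩, rfl⟩, hT⟩
  have h1 := (card_le_card hsub).trans ((card_union_le _ _).trans (add_le_add le_rfl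
    ((card_union_le _ _).trans (add_le_add hU hU'))))
  have h2 : ((univ.filter fun q : Σ _ : I × J × K, Finset K =>
      W q.1.1 q.1.2.1 (τ q.1.1 q.1.2.1 q.1.2.2) < W q.1.1 q.1.2.1 (ζ q.1.1 q.1.2.1 q.2)).card : ℝ)
      ≤ (((univ.filter fun q : Σ _ : I × J × K, Finset K => ∃ l, Good τ ζ t (V l) q).card +
        (Fintype.card I * Fintype.card J * 2 ^ Fintype.card K +
          Fintype.card I * Fintype.card J * ((t + 1) * 2 ^ Fintype.card K)) : ℕ) : ℝ) := by
    exact_mod_cast h1
  refine h2.trans (le_of_eq ?_)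
  push_cast
  ring

end Pool.Agent.H80.Cm
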