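import Pool.Agent.H80.Cm.Mach
import Pool.Agent.H80.Cm.Trc

/-!
# Straight-line programs
-/

set_option linter.unusedSectionVars false

namespace Pool.Agent.H80.Cm

open Finset Pool.Agent.H587R2.MRB Classical

variable {p M : ℕ} {A : Type}

theorem Instr.run_mono (i : Instr p M A) {s s' : State p M A} (h : s ≤ s') : i.run s ≤ i.run s' := by
  cases i with
  | read i r a =>
    refine ⟨?_, h.2⟩
    intro j
    by_cases hj : j = i
    · subst hj
      simp only [Instr.run, Function.update_self]
      intro r'
      by_cases hr : r' = r
      · subst hr
        simp only [Function.update_self]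
        exact h.2 a
      · simp only [Function.update_of_ne hr]
        exact h.1 j r'
    · simp only [Instr.run, Function.update_of_ne hj]
      exact h.1 j
  | write i a r =>
    refine ⟨h.1, ?_⟩
    intro b
    by_cases hb : b = a
    · subst hb
      simp only [Instr.run, Function.update_self]
      exact h.1 i r
    · simp only [Instr.run, Function.update_of_ne hb]
      exact h.2 b
  | compute i f hf =>
    refine ⟨?_, h.2⟩
    intro j
    by_cases hj : j = i
    · subst hj
      simp only [Instr.run, Function.update_self]
      exact hf (h.1 j)
    · simp only [Instr.run, Function.update_of_ne hj]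
      exact h.1 j

/-- The state at the time `n`. -/
noncomputable def stt (l : List (Instr p M A)) (n : ℕ) (s : State p M A) : State p M A :=
  (l.take n).foldl (fun s i => i.run s) s

theorem stt_zero (l : List (Instr p M A)) (s : State p M A) : stt l 0 s = s := by
  simp [stt]

theorem stt_succ (l : List (Instr p M A)) (n : ℕ) (s : State p M A) :
    stt l (n + 1) s = (l[n]?.elim (stt l n s) fun i => i.run (stt l n s)) := by
  unfold stt
  rw [List.take_add_one, List.foldl_append]
  cases l[n]? <;> simp

theorem stt_mono (l : List (Instr p M A)) (n : ℕ) {s s' : State p M A} (h : s ≤ s') :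
    stt l n s ≤ stt l n s' := by
  induction n with
  | zero => simpa [stt_zero] using h
  | succ n ih =>
    rw [stt_succ, stt_succ]
    cases l[n]? with
    | none => simpa using ih
    | some i => simpa using i.run_mono ih

/-- The number of transfers of `i` in the instruction number `n`. -/
def cst (l : List (Instr p M A)) (i : Fin p) (n : ℕ) : ℕ := l[n]?.elim 0 fun I => I.cost i

theorem cst_le_one (l : List (Instr p M A)) (i : Fin p) (n : ℕ) : cst l i n ≤ 1 := by
  unfold cst
  cases l[n]? with
  | none => simp
  | some I => cases I <;> simp only [Option.elim, Instr.cost] <;> (try split_ifs) <;> omega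

/-- The number of transfers of `i` before the time `n`. -/
def cnt (l : List (Instr p M A)) (i : Fin p) (n : ℕ) : ℕ := ∑ k ∈ range n, cst l i k

theorem cnt_succ (l : List (Instr p M A)) (i : Fin p) (n : ℕ) :
    cnt l i (n + 1) = cnt l i n + cst l i n := sum_range_succ _ _

theorem cnt_mono (l : List (Instr p M A)) (i : Fin p) : Monotone (cnt l i) :=
  monotone_nat_of_le_succ fun n => by rw [cnt_succ]; omega

theorem cnt_length (l : List (Instr p M A)) (i : Fin p) :
    cnt l i l.length = (l.map fun I => I.cost i).sum := by
  induction l with
  | nil => simp [cnt]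
  | cons I l ih =>
    rw [List.length_cons, cnt, sum_range_succ']
    simp only [cst, List.getElem?_cons_succ, List.getElem?_cons_zero, Option.elim,
      List.map_cons, List.sum_cons]
    rw [cnt] at ih
    simp only [cst] at ih
    rw [add_comm]
    congr 1

/-- The segment of the processor `i` at the time `n`. -/
def seg (l : List (Instr p M A)) (i : Fin p) (n : ℕ) : ℕ := cnt l i n / M

theorem seg_mono (l : List (Instr p M A)) (i : Fin p) : Monotone (seg l i) := fun _ _ h =>
  Nat.div_le_div_right (cnt_mono l i h)

/-- A new segment begins at the time `n + 1`. -/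
def Bd (l : List (Instr p M A)) (i : Fin p) (n : ℕ) : Prop := seg l i n ≠ seg l i (n + 1)

/-- Places: a time and a register. -/
abbrev Place (p M : ℕ) (A : Type) : Type := ℕ × (A ⊕ (Fin p × Fin M))

/-- The content of a place.  The content of a local register is only used at the begin of a
segment. -/
noncomputable def val {X : Type} (l : List (Instr p M A)) (S : X → State p M A) :
    Place p M A → X → ℝ
  | (n, Sum.inl a), x => (stt l n (S x)).2 a
  | (0, Sum.inr _), _ => 0
  | (n + 1, Sum.inr (i, r)), x => if Bd l i n ∧ n < l.length then (stt l (n + 1) (S x)).1 i r else 0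

/-- The register which is read by `i` at the time `n`. -/
noncomputable def rdS (l : List (Instr p M A)) (i : Fin p) (n : ℕ) : Finset (Place p M A) :=
  match l[n]? with
  | some (Instr.read j _ a) => if i = j then {(n, Sum.inl a)} else ∅
  | _ => ∅

/-- The register which is written by `i` at the time `n`. -/
noncomputable def wrS (l : List (Instr p M A)) (i : Fin p) (n : ℕ) : Finset (Place p M A) :=
  match l[n]? with
  | some (Instr.write j a _) => if i = j then {(n + 1, Sum.inl a)} else ∅
  | _ => ∅

/-- The local registers of `i` at the time `n + 1`, if a new segment begins. -/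
noncomputable def bdS (l : List (Instr p M A)) (i : Fin p) (n : ℕ) : Finset (Place p M A) :=
  if Bd l i n then univ.image fun r : Fin M => (n + 1, Sum.inr (i, r)) else ∅

theorem card_rdS (l : List (Instr p M A)) (i : Fin p) (n : ℕ) :
    (rdS l i n).card + (wrS l i n).card ≤ cst l i n := by
  unfold rdS wrS cst
  cases l[n]? with
  | none => simp
  | some I =>
    cases I <;> simp only [Option.elim, Instr.cost] <;> (try split_ifs) <;> simp

theorem card_bdS (l : List (Instr p M A)) (i : Fin p) (n : ℕ) :
    (bdS l i n).card ≤ if Bd l i n then M else 0 := by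
  unfold bdS
  split_ifs with h
  · exact card_image_le.trans (by simp)
  · simp

/-- The places which are read in the segment `m` of `i`. -/
noncomputable def inS (l : List (Instr p M A)) (b : Fin p × ℕ) : Finset (Place p M A) :=
  (((range l.length).filter fun n => seg l b.1 n = b.2).biUnion fun n => rdS l b.1 n) ∪
    (((range l.length).filter fun n => seg l b.1 (n + 1) = b.2).biUnion fun n => bdS l b.1 n)

/-- The places which are written in the segment `m` of `i`. -/
noncomputable def outS (l : List (Instr p M A)) (b : Fin p × ℕ) : Finset (Place p M A) :=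
  (((range l.length).filter fun n => seg l b.1 n = b.2).biUnion fun n => wrS l b.1 n) ∪
    (((range l.length).filter fun n => seg l b.1 n = b.2).biUnion fun n => bdS l b.1 n)

theorem sum_fiber_le (L R : ℕ) (g f : ℕ → ℕ) :
    ∑ m : Fin R, ∑ n ∈ (range L).filter (fun n => g n = m.val), f n ≤ ∑ n ∈ range L, f n := by
  simp_rw [sum_filter]
  rw [sum_comm]
  refine sum_le_sum fun n _ => ?_
  by_cases h : g n < R
  · rw [sum_eq_single (⟨g n, h⟩ : Fin R)]
    · simp
    · intro b _ hb
      rw [if_neg]
      intro hh
      exact hb (Fin.ext hh.symm)
    · simp
  · rw [sum_eq_zero]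
    · exact Nat.zero_le _
    · intro m _
      rw [if_neg]
      intro hh
      exact h (hh ▸ m.2)

theorem sum_bd_le (l : List (Instr p M A)) (i : Fin p) (L : ℕ) :
    ∑ n ∈ range L, (if Bd l i n then M else 0) ≤ cnt l i L := by
  have h1 : ∀ L, ∑ n ∈ range L, (if Bd l i n then 1 else 0) ≤ seg l i L := by
    intro L
    induction L with
    | zero => simp
    | succ L ih =>
      rw [sum_range_succ]
      have h2 := seg_mono l i (Nat.le_succ L)
      split_ifs with h3
      · unfold Bd at h3
        rw [Nat.succ_eq_add_one] at h2
        omega
      · rw [Nat.succ_eq_add_one] at h2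
        omega
  calc ∑ n ∈ range L, (if Bd l i n then M else 0)
      = M * ∑ n ∈ range L, (if Bd l i n then 1 else 0) := by
        rw [mul_sum]
        refine sum_congr rfl fun n _ => ?_
        split_ifs <;> simp
    _ ≤ M * seg l i L := Nat.mul_le_mul_left _ (h1 L)
    _ ≤ cnt l i L := Nat.mul_div_le _ _

theorem sum_cst_seg (hM : 1 ≤ M) (l : List (Instr p M A)) (i : Fin p) (L m : ℕ) :
    ∑ n ∈ (range L).filter (fun n => seg l i n = m), cst l i n ≤ min M (cnt l i L) := by
  refine le_min ?_ ?_
  · calc ∑ n ∈ (range L).filter (fun n => seg l i n = m), cst l i n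
        ≤ ∑ n ∈ ((range L).filter (fun n => seg l i n = m)).filter (fun n => cst l i n = 1), 1 := by
          rw [sum_filter (p := fun n => cst l i n = 1)]
          refine sum_le_sum fun n _ => ?_
          have := cst_le_one l i n
          split_ifs with h <;> omega
      _ = (((range L).filter (fun n => seg l i n = m)).filter (fun n => cst l i n = 1)).card := by
          rw [card_eq_sum_ones]
      _ ≤ (Ico (m * M) (m * M + M)).card := by
          refine card_le_card_of_injOn (cnt l i) ?_ ?_
          · intro n hn
            rw [mem_coe, mem_filter, mem_filter] at hn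
            rw [mem_coe, mem_Ico]
            have h1 : cnt l i n / M = m := hn.1.2
            have h2 := Nat.div_mul_le_self (cnt l i n) M
            have h3 := Nat.lt_div_mul_add (a := cnt l i n) (b := M) (by omega)
            rw [h1] at h2 h3
            exact ⟨h2, h3⟩
          · intro n hn n' hn' heq
            rw [mem_coe, mem_filter, mem_filter] at hn hn'
            rcases lt_trichotomy n n' with h | h | h
            · have h1 := cnt_mono l i (Nat.succ_le_of_lt h)
              rw [Nat.succ_eq_add_one, cnt_succ, hn.2] at h1
              omega
            · exact h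
            · have h1 := cnt_mono l i (Nat.succ_le_of_lt h)
              rw [Nat.succ_eq_add_one, cnt_succ, hn'.2] at h1
              omega
      _ = M := by simp
  · exact sum_le_sum_of_subset (filter_subset _ _)

theorem sum_bd_seg (l : List (Instr p M A)) (i : Fin p) (L m : ℕ) :
    ∑ n ∈ (range L).filter (fun n => seg l i n = m), (if Bd l i n then M else 0) ≤
      min M (cnt l i L) := by
  refine le_min ?_ ?_
  · rw [← sum_filter, sum_const, smul_eq_mul]
    refine le_trans (Nat.mul_le_mul_right M ?_) (one_mul M).le
    rw [card_le_one]
    intro n hn n' hn'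
    rw [mem_filter, mem_filter] at hn hn'
    unfold Bd at hn hn'
    rcases lt_trichotomy n n' with h | h | h
    · have h1 := seg_mono l i (Nat.succ_le_of_lt h)
      have h2 := seg_mono l i (Nat.le_succ n)
      rw [Nat.succ_eq_add_one] at h1 h2
      omega
    · exact h
    · have h1 := seg_mono l i (Nat.succ_le_of_lt h)
      have h2 := seg_mono l i (Nat.le_succ n')
      rw [Nat.succ_eq_add_one] at h1 h2
      omega
  · exact (sum_le_sum_of_subset (filter_subset _ _)).trans (sum_bd_le l i L)

/-- The total number of places which are read. -/
theorem sum_card_inS (l : List (Instr p M A)) (i : Fin p) (R : ℕ) :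
    ∑ m : Fin R, (inS l (i, m.val)).card ≤ 2 * cnt l i l.length := by
  calc ∑ m : Fin R, (inS l (i, m.val)).card
      ≤ ∑ m : Fin R, (∑ n ∈ (range l.length).filter (fun n => seg l i n = m.val), cst l i n +
          ∑ n ∈ (range l.length).filter (fun n => seg l i (n + 1) = m.val),
            (if Bd l i n then M else 0)) := by
        refine sum_le_sum fun m _ => ?_
        refine (card_union_le _ _).trans (add_le_add ?_ ?_)
        · exact card_biUnion_le.trans (sum_le_sum fun n _ => by
            have := card_rdS l i n
            simp only
            omega)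
        · exact card_biUnion_le.trans (sum_le_sum fun n _ => card_bdS l i n)
    _ ≤ ∑ n ∈ range l.length, cst l i n +
          ∑ n ∈ range l.length, (if Bd l i n then M else 0) := by
        rw [sum_add_distrib]
        exact add_le_add (sum_fiber_le _ _ _ _)
          (sum_fiber_le _ _ (fun n => seg l i (n + 1)) _)
    _ ≤ cnt l i l.length + cnt l i l.length := add_le_add le_rfl (sum_bd_le l i _)
    _ = _ := by ring

theorem card_outS_le (l : List (Instr p M A)) (i : Fin p) (m : ℕ) :
    (outS l (i, m)).card ≤ ∑ n ∈ (range l.length).filter (fun n => seg l i n = m), cst l i n +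
      ∑ n ∈ (range l.length).filter (fun n => seg l i n = m), (if Bd l i n then M else 0) := by
  refine (card_union_le _ _).trans (add_le_add ?_ ?_)
  · exact card_biUnion_le.trans (sum_le_sum fun n _ => by
      have := card_rdS l i n
      simp only
      omega)
  · exact card_biUnion_le.trans (sum_le_sum fun n _ => card_bdS l i n)

/-- The total number of places which are written. -/
theorem sum_card_outS (l : List (Instr p M A)) (i : Fin p) (R : ℕ) :
    ∑ m : Fin R, (outS l (i, m.val)).card ≤ 2 * cnt l i l.length := by
  calc ∑ m : Fin R, (outS l (i, m.val)).card ≤ _ := sum_le_sum fun m _ => card_outS_le l i m.val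
    _ ≤ ∑ n ∈ range l.length, cst l i n +
          ∑ n ∈ range l.length, (if Bd l i n then M else 0) := by
        rw [sum_add_distrib]
        exact add_le_add (sum_fiber_le _ _ _ _) (sum_fiber_le _ _ _ _)
    _ ≤ cnt l i l.length + cnt l i l.length := add_le_add le_rfl (sum_bd_le l i _)
    _ = _ := by ring

theorem card_outS (hM : 1 ≤ M) (l : List (Instr p M A)) (i : Fin p) (m : ℕ) :
    (outS l (i, m)).card ≤ 2 * min M (cnt l i l.length) := by
  refine (card_outS_le l i m).trans ?_
  rw [two_mul]
  exact add_le_add (sum_cst_seg hM l i _ m) (sum_bd_seg l i _ m)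

end Pool.Agent.H80.Cm
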