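import Pool.Agent.H80.Cm.Blk

/-!
# The total charge of a block
-/

set_option linter.unusedSectionVars false

namespace Pool.Agent.H80.Cm

open Finset Pool.Agent.H587R2.MRB Classical

variable {X I J K : Type} [Fintype I] [Fintype J] [Fintype K] [Preorder X]
  {τ : I → J → K → X} {ζ : I → J → Finset K → X}
variable {α β : Type} [Fintype α] [Fintype β]

theorem sum_u0 (h : Points τ ζ) {R : α → X → ℝ} (hR : ∀ r, Monotone (R r)) :
    ∑ k, ∑ i, (u0 τ ζ R i k : ℝ) ≤ Fintype.card α * 2 ^ Fintype.card K := by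
  have h1 : ∑ k, ∑ i, u0 τ ζ R i k ≤ Fintype.card α * 2 ^ Fintype.card K := by
    calc ∑ k, ∑ i, u0 τ ζ R i k = ∑ r, ∑ i, ∑ k, xm τ ζ (R r) i k := by
          unfold u0
          rw [sum_comm]
          simp_rw [sum_comm (γ := K) (s := univ (α := K))]
          rw [sum_comm]
      _ ≤ ∑ _r : α, 2 ^ Fintype.card K := sum_le_sum fun r _ => sum_xm h (hR r)
      _ = _ := by rw [sum_const, card_univ, smul_eq_mul]
  exact_mod_cast h1

theorem sum_u1 (h : Points τ ζ) {R : α → X → ℝ} (hR : ∀ r, Monotone (R r)) :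
    ∑ k, ∑ j, (u1 τ ζ R k j : ℝ) ≤ Fintype.card α * 2 ^ Fintype.card K := by
  have h1 : ∑ k, ∑ j, u1 τ ζ R k j ≤ Fintype.card α * 2 ^ Fintype.card K := by
    calc ∑ k, ∑ j, u1 τ ζ R k j = ∑ r, ∑ k, ∑ j, ym τ ζ (R r) k j := by
          unfold u1
          simp_rw [sum_comm (γ := J) (s := univ (α := J))]
          rw [sum_comm]
      _ ≤ ∑ _r : α, 2 ^ Fintype.card K := sum_le_sum fun r _ => sum_ym h (hR r)
      _ = _ := by rw [sum_const, card_univ, smul_eq_mul]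
  exact_mod_cast h1

theorem min_le_sqrt {a b : ℝ} (ha : 0 ≤ a) (hb : 0 ≤ b) : min a b ≤ √(a * b) := by
  rw [Real.le_sqrt (le_min ha hb) (mul_nonneg ha hb), sq]
  exact mul_le_mul (min_le_left _ _) (min_le_right _ _) (le_min ha hb) ha

/-- The number of terms of the matrix product which can be formed with `a` entries of the first
matrix, `b` entries of the second matrix and `q` entries of the product. -/
theorem sum_min (P : Finset (I × J)) (a : I → K → ℝ) (b : K → J → ℝ) (ha : ∀ i k, 0 ≤ a i k)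
    (hb : ∀ k j, 0 ≤ b k j) {A B : ℝ} (hA : ∑ k, ∑ i, a i k ≤ A) (hB : ∑ k, ∑ j, b k j ≤ B) :
    ∑ p ∈ P, ∑ k, min (a p.1 k) (b k p.2) ≤ √(P.card) * (√A * √B) := by
  rw [sum_comm]
  have h1 : ∀ k, ∑ p ∈ P, min (a p.1 k) (b k p.2) ≤
      √(P.card) * (√(∑ i, a i k) * √(∑ j, b k j)) := by
    intro k
    calc ∑ p ∈ P, min (a p.1 k) (b k p.2) ≤ ∑ p ∈ P, √1 * √(a p.1 k * b k p.2) := by
          refine sum_le_sum fun p _ => ?_
          rw [Real.sqrt_one, one_mul]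
          exact min_le_sqrt (ha _ _) (hb _ _)
      _ ≤ √(∑ _p ∈ P, 1) * √(∑ p ∈ P, a p.1 k * b k p.2) :=
          Real.sum_sqrt_mul_sqrt_le _ (fun _ => by positivity) fun _ => mul_nonneg (ha _ _) (hb _ _)
      _ ≤ √(P.card) * (√(∑ i, a i k) * √(∑ j, b k j)) := by
          rw [← Real.sqrt_mul (sum_nonneg fun i _ => ha i k)]
          gcongr
          · simp
          · calc ∑ p ∈ P, a p.1 k * b k p.2 ≤ ∑ p : I × J, a p.1 k * b k p.2 :=
                  sum_le_sum_of_subset_of_nonneg (subset_univ _) fun _ _ _ =>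
                    mul_nonneg (ha _ _) (hb _ _)
              _ = (∑ i, a i k) * ∑ j, b k j := by
                  rw [Fintype.sum_prod_type, sum_mul_sum]
  calc ∑ k, ∑ p ∈ P, min (a p.1 k) (b k p.2)
      ≤ ∑ k, √(P.card) * (√(∑ i, a i k) * √(∑ j, b k j)) := sum_le_sum fun k _ => h1 k
    _ = √(P.card) * ∑ k, √(∑ i, a i k) * √(∑ j, b k j) := (mul_sum _ _ _).symm
    _ ≤ √(P.card) * (√(∑ k, ∑ i, a i k) * √(∑ k, ∑ j, b k j)) := by
        gcongr
        exact Real.sum_sqrt_mul_sqrt_le _ (fun k => sum_nonneg fun i _ => ha i k)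
          fun k => sum_nonneg fun j _ => hb k j
    _ ≤ √(P.card) * (√A * √B) := by gcongr

theorem sum_bad {R : α → X → ℝ} {mR : α → I × J} {t : ℕ}
    (hmR : ∀ r, ∑ p ∈ (mx τ ζ (R r)).filter (fun p => (p.1, p.2.1) ≠ mR r),
      (dset τ ζ (R r) p.1 p.2.1 p.2.2).card ≤ (t + 1) * 2 ^ Fintype.card K) :
    ∑ p : I × J, ∑ k, (bad τ ζ R mR p.1 p.2 k : ℝ) ≤
      (t + 1) * (Fintype.card α * 2 ^ Fintype.card K) := by
  have h1 : ∑ p : I × J, ∑ k, bad τ ζ R mR p.1 p.2 k ≤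
      (t + 1) * (Fintype.card α * 2 ^ Fintype.card K) := by
    calc ∑ p : I × J, ∑ k, bad τ ζ R mR p.1 p.2 k
        = ∑ x : (I × J) × K, ∑ r, (if Mixed τ ζ (R r) x.1.1 x.1.2 x.2 ∧ (x.1.1, x.1.2) ≠ mR r then
            (dset τ ζ (R r) x.1.1 x.1.2 x.2).card else 0) := by
          rw [← Fintype.sum_prod_type']
          rfl
      _ = ∑ r, ∑ x : (I × J) × K, (if Mixed τ ζ (R r) x.1.1 x.1.2 x.2 ∧ (x.1.1, x.1.2) ≠ mR r then
            (dset τ ζ (R r) x.1.1 x.1.2 x.2).card else 0) := sum_comm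
      _ ≤ ∑ _r : α, (t + 1) * 2 ^ Fintype.card K := by
          refine sum_le_sum fun r _ => ?_
          refine le_trans (le_of_eq ?_) (hmR r)
          rw [mx, filter_filter, sum_filter]
          exact (Equiv.sum_comp (Equiv.prodAssoc I J K) fun p : I × J × K =>
            if Mixed τ ζ (R r) p.1 p.2.1 p.2.2 ∧ (p.1, p.2.1) ≠ mR r then
              (dset τ ζ (R r) p.1 p.2.1 p.2.2).card else 0)
      _ = _ := by rw [sum_const, card_univ, smul_eq_mul]; ring
  exact_mod_cast h1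

theorem sum_nreg (mR : α → I × J) (mO : β → I × J) :
    ∑ p : I × J, (nreg mR mO p.1 p.2 : ℝ) = Fintype.card α + Fintype.card β := by
  have h1 : ∑ p : I × J, nreg mR mO p.1 p.2 = Fintype.card β + Fintype.card α := by
    unfold nreg
    rw [sum_add_distrib]
    congr 1
    · rw [← card_univ]
      exact (card_eq_sum_card_fiberwise (f := mO) (t := univ) (fun _ _ => mem_univ _)).symm
    · rw [← card_univ]
      exact (card_eq_sum_card_fiberwise (f := mR) (t := univ) (fun _ _ => mem_univ _)).symm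
  have h2 : ((∑ p : I × J, nreg mR mO p.1 p.2 : ℕ) : ℝ) = ((Fintype.card β + Fintype.card α : ℕ) : ℝ) := by
    rw [h1]
  push_cast at h2
  linarith

/-- The bound of the charge of a block. -/
noncomputable def bnd (N p q t : ℕ) : ℝ :=
  2 ^ N * (3 * (√q * p) + 3 * ((t + 1) * p) + 4 * ((p + q) * Real.logb 2 (N + 1)))

theorem block_bound (h : Points τ ζ) {pr : α → β → Prop} {R : α → X → ℝ} {O : β → X → ℝ}
    {mR : α → I × J} {mO : β → I × J} (hR : ∀ r, Monotone (R r))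
    (hdet : ∀ o x y, (∀ r, pr r o → R r x ≤ R r y) → O o x ≤ O o y) {t : ℕ}
    (hmR : ∀ r, ∑ p ∈ (mx τ ζ (R r)).filter (fun p => (p.1, p.2.1) ≠ mR r),
      (dset τ ζ (R r) p.1 p.2.1 p.2.2).card ≤ (t + 1) * 2 ^ Fintype.card K) :
    ∑ p : I × J, ∑ T, ((chg τ ζ pr R O mR mO p.1 p.2 T).card : ℝ) ≤
      bnd (Fintype.card K) (Fintype.card α) (Fintype.card β) t := by
  set N := Fintype.card K with hN
  set P : Finset (I × J) := univ.image mO with hP
  have hPc : P.card ≤ Fintype.card β := card_image_le.trans (by rw [card_univ])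
  have h0 : ∀ p : I × J, p ∉ P → ∑ T, ((chg τ ζ pr R O mR mO p.1 p.2 T).card : ℝ) = 0 := by
    intro p hp
    refine sum_eq_zero fun T _ => ?_
    rw [Nat.cast_eq_zero, card_eq_zero, eq_empty_iff_forall_notMem]
    intro k hk
    simp only [chg, mem_filter, mem_univ, true_and] at hk
    obtain ⟨o, ho, -⟩ := hk
    exact hp (mem_image.2 ⟨o, mem_univ _, ho⟩)
  have hlog : 0 ≤ Real.logb 2 ((N : ℝ) + 1) := Real.logb_nonneg (by norm_num) (by linarith [N.cast_nonneg (α := ℝ)])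
  have hmin : ∑ p ∈ P, ∑ k, min (u0 τ ζ R p.1 k : ℝ) (u1 τ ζ R k p.2) ≤
      √(Fintype.card β) * (Fintype.card α * 2 ^ N) := by
    refine (sum_min P (fun i k => (u0 τ ζ R i k : ℝ)) (fun k j => (u1 τ ζ R k j : ℝ))
      (fun _ _ => Nat.cast_nonneg _) (fun _ _ => Nat.cast_nonneg _) (sum_u0 h hR)
      (sum_u1 h hR)).trans ?_
    rw [Real.mul_self_sqrt (by positivity)]
    gcongr
  have hbad : ∑ p ∈ P, ∑ k, (bad τ ζ R mR p.1 p.2 k : ℝ) ≤
      (t + 1) * (Fintype.card α * 2 ^ N) := by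
    refine le_trans ?_ (sum_bad hmR)
    exact sum_le_sum_of_subset_of_nonneg (subset_univ _) fun _ _ _ =>
      sum_nonneg fun _ _ => Nat.cast_nonneg _
  have hnr : ∑ p ∈ P, (nreg mR mO p.1 p.2 : ℝ) ≤ Fintype.card α + Fintype.card β := by
    rw [← sum_nreg mR mO]
    exact sum_le_sum_of_subset_of_nonneg (subset_univ _) fun _ _ _ => Nat.cast_nonneg _
  calc ∑ p : I × J, ∑ T, ((chg τ ζ pr R O mR mO p.1 p.2 T).card : ℝ)
      = ∑ p ∈ P, ∑ T, ((chg τ ζ pr R O mR mO p.1 p.2 T).card : ℝ) :=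
        (sum_subset (subset_univ _) fun p _ hp => h0 p hp).symm
    _ ≤ ∑ p ∈ P, (3 * ∑ k, (min (u0 τ ζ R p.1 k : ℝ) (u1 τ ζ R k p.2) + bad τ ζ R mR p.1 p.2 k) +
        4 * (2 ^ N * (nreg mR mO p.1 p.2 * Real.logb 2 (N + 1)))) :=
        sum_le_sum fun p _ => pair_bound hdet p.1 p.2
    _ = 3 * ∑ p ∈ P, ∑ k, min (u0 τ ζ R p.1 k : ℝ) (u1 τ ζ R k p.2) +
        3 * ∑ p ∈ P, ∑ k, (bad τ ζ R mR p.1 p.2 k : ℝ) +
        4 * (2 ^ N * ((∑ p ∈ P, (nreg mR mO p.1 p.2 : ℝ)) * Real.logb 2 (N + 1))) := by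
        rw [sum_add_distrib, ← mul_sum, ← mul_sum, ← mul_sum, sum_mul]
        simp_rw [sum_add_distrib]
        ring
    _ ≤ 3 * (√(Fintype.card β) * (Fintype.card α * 2 ^ N)) +
        3 * ((t + 1) * (Fintype.card α * 2 ^ N)) +
        4 * (2 ^ N * ((Fintype.card α + Fintype.card β) * Real.logb 2 (N + 1))) := by
        gcongr
    _ = _ := by unfold bnd; ring

end Pool.Agent.H80.Cm
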